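import Mathlib

/-!
# Regular triangulations of the unit cube from generic heights

`V n` is the set of vertices of the cube `[0,1]^n`.  For generic heights `h : V n → ℝ`
the lower-hull cells `Good h s` form a face-to-face triangulation of the cube.
-/

set_option autoImplicit false

namespace Pool.R178

open Finset

/-- vertices of the cube -/
abbrev V (n : ℕ) := Fin n → Bool

/-- 0/1 value -/
noncomputable def bv (b : Bool) : ℝ := if b then 1 else 0

@[simp] lemma bv_true : bv true = 1 := by simp [bv]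
@[simp] lemma bv_false : bv false = 0 := by simp [bv]

lemma bv_nonneg (b : Bool) : 0 ≤ bv b := by cases b <;> simp
lemma bv_le_one (b : Bool) : bv b ≤ 1 := by cases b <;> simp
lemma bv_inj {a b : Bool} (h : bv a = bv b) : a = b := by
  cases a <;> cases b <;> simp_all

/-- the embedding of the vertices in `ℝ^n` -/
noncomputable def e {n : ℕ} (v : V n) : Fin n → ℝ := fun i => bv (v i)

lemma e_inj {n : ℕ} : Function.Injective (e (n := n)) := by
  intro a b h
  funext i
  exact bv_inj (congrFun h i)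

/-- affine function with coefficients `y`, at the point `x` -/
noncomputable def Lx {n : ℕ} (y : Fin (n+1) → ℝ) (x : Fin n → ℝ) : ℝ :=
  y 0 + ∑ i, y i.succ * x i

/-- affine function with coefficients `y`, at the vertex `v` -/
noncomputable def L {n : ℕ} (y : Fin (n+1) → ℝ) (v : V n) : ℝ := Lx y (e v)

/-- matrix of homogeneous coordinates -/
noncomputable def M {n : ℕ} (s : Fin (n+1) → V n) : Matrix (Fin (n+1)) (Fin (n+1)) ℝ :=
  Matrix.of fun j k => (Fin.cons 1 (e (s j)) : Fin (n+1) → ℝ) k

lemma M_mulVec {n : ℕ} (s : Fin (n+1) → V n) (y : Fin (n+1) → ℝ) (j : Fin (n+1)) :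
    (M s).mulVec y j = L y (s j) := by
  simp only [Matrix.mulVec, dotProduct, M, Matrix.of_apply, L, Lx]
  rw [Fin.sum_univ_succ]
  simp [mul_comm]

lemma Lx_add {n : ℕ} (y z : Fin (n+1) → ℝ) (x : Fin n → ℝ) : Lx (y + z) x = Lx y x + Lx z x := by
  simp only [Lx, Pi.add_apply, add_mul, Finset.sum_add_distrib]; ring

lemma Lx_smul {n : ℕ} (c : ℝ) (z : Fin (n+1) → ℝ) (x : Fin n → ℝ) :
    Lx (c • z) x = c * Lx z x := by
  simp only [Lx, Pi.smul_apply, smul_eq_mul, mul_add, Finset.mul_sum, mul_assoc]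

lemma L_add {n : ℕ} (y z : Fin (n+1) → ℝ) (v : V n) : L (y + z) v = L y v + L z v := Lx_add _ _ _

lemma L_smul {n : ℕ} (c : ℝ) (z : Fin (n+1) → ℝ) (v : V n) : L (c • z) v = c * L z v :=
  Lx_smul _ _ _

/-- nondegenerate tuples -/
def Nondeg {n : ℕ} (s : Fin (n+1) → V n) : Prop := (M s).det ≠ 0

lemma Nondeg.eq_zero {n : ℕ} {s : Fin (n+1) → V n} (hs : Nondeg s) {z : Fin (n+1) → ℝ}
    (hz : ∀ j, L z (s j) = 0) : z = 0 := by
  by_contra hne
  exact hs ((Matrix.exists_mulVec_eq_zero_iff).1 ⟨z, hne, by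
    funext j; rw [M_mulVec, hz]; rfl⟩)

lemma nondeg_of {n : ℕ} {s : Fin (n+1) → V n}
    (h : ∀ z : Fin (n+1) → ℝ, (∀ j, L z (s j) = 0) → z = 0) : Nondeg s := by
  intro hdet
  obtain ⟨z, hz0, hz⟩ := (Matrix.exists_mulVec_eq_zero_iff).2 hdet
  exact hz0 (h z fun j => by rw [← M_mulVec, hz]; rfl)

lemma Nondeg.solve {n : ℕ} {s : Fin (n+1) → V n} (hs : Nondeg s) (a : Fin (n+1) → ℝ) :
    ∃ y, ∀ j, L y (s j) = a j := by
  refine ⟨(M s)⁻¹.mulVec a, fun j => ?_⟩
  rw [← M_mulVec, Matrix.mulVec_mulVec, Matrix.mul_nonsing_inv _ (isUnit_iff_ne_zero.2 hs),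
    Matrix.one_mulVec]

lemma Nondeg.unique {n : ℕ} {s : Fin (n+1) → V n} (hs : Nondeg s) {y z : Fin (n+1) → ℝ}
    (h : ∀ j, L y (s j) = L z (s j)) : y = z := by
  have : y + (-1 : ℝ) • z = 0 := hs.eq_zero fun j => by rw [L_add, L_smul, h]; ring
  funext k
  have := congrFun this k
  simp at this
  linarith

lemma Nondeg.injective {n : ℕ} {s : Fin (n+1) → V n} (hs : Nondeg s) :
    Function.Injective s := by
  intro i j hij
  by_contra hne
  exact hs (Matrix.det_zero_of_row_eq hne (by funext k; simp [M, hij]))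

/-- barycentric coordinates -/
lemma Nondeg.bary {n : ℕ} {s : Fin (n+1) → V n} (hs : Nondeg s) (x : Fin n → ℝ) :
    ∃ a : Fin (n+1) → ℝ, ∑ j, a j = 1 ∧ ∀ i, ∑ j, a j * e (s j) i = x i := by
  let u : Fin (n+1) → ℝ := Fin.cons 1 x
  refine ⟨Matrix.vecMul u (M s)⁻¹, ?_, ?_⟩
  · have h : Matrix.vecMul (Matrix.vecMul u (M s)⁻¹) (M s) = u := by
      rw [Matrix.vecMul_vecMul, Matrix.nonsing_inv_mul _ (isUnit_iff_ne_zero.2 hs),
        Matrix.vecMul_one]
    have h0 := congrFun h 0
    simpa [Matrix.vecMul, dotProduct, M, u] using h0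
  · intro i
    have h : Matrix.vecMul (Matrix.vecMul u (M s)⁻¹) (M s) = u := by
      rw [Matrix.vecMul_vecMul, Matrix.nonsing_inv_mul _ (isUnit_iff_ne_zero.2 hs),
        Matrix.vecMul_one]
    have h0 := congrFun h i.succ
    simpa [Matrix.vecMul, dotProduct, M, u] using h0

lemma Lx_bary {n : ℕ} {s : Fin (n+1) → V n} {a : Fin (n+1) → ℝ} {x : Fin n → ℝ}
    (h1 : ∑ j, a j = 1) (h2 : ∀ i, ∑ j, a j * e (s j) i = x i) (y : Fin (n+1) → ℝ) :
    Lx y x = ∑ j, a j * L y (s j) := by
  simp only [L, Lx, mul_add, Finset.sum_add_distrib, ← Finset.sum_mul, h1, one_mul]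
  congr 1
  simp only [← h2, Finset.mul_sum]
  rw [Finset.sum_comm]
  refine Finset.sum_congr rfl fun j _ => Finset.sum_congr rfl fun i _ => by ring

/-- feasible vertex tuples -/
def Feas {n : ℕ} (h : V n → ℝ) (s : Fin (n+1) → V n) (y : Fin (n+1) → ℝ) : Prop :=
  (∀ j, L y (s j) = h (s j)) ∧ ∀ v, L y v ≤ h v

lemma exists_init : ∀ (n : ℕ) (h : V n → ℝ), ∃ s y, Nondeg s ∧ Feas h s y
  | 0, h => by
    refine ⟨fun _ => fun i => i.elim0, fun _ => h (fun i => i.elim0), ?_, ?_, ?_⟩
    · apply nondeg_of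
      intro z hz
      funext k
      have := hz 0
      simp only [L, Lx, Finset.univ_eq_empty, Finset.sum_empty, add_zero] at this
      have hk : k = 0 := by
        apply Fin.ext
        have := k.isLt
        simp only [zero_add] at this
        simp only [Fin.val_zero]
        omega
      rw [hk, this]; rfl
    · intro j
      simp [L, Lx]
    · intro v
      have : v = (fun i => i.elim0) := by funext i; exact i.elim0
      simp [L, Lx, this]
  | n+1, h => by
    obtain ⟨s', y', hs', ht', hf'⟩ := exists_init n (fun v => h (Fin.cons false v))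
    obtain ⟨v0, -, hv0⟩ := Finset.exists_min_image (Finset.univ : Finset (V n))
      (fun v => h (Fin.cons true v) - L y' v) Finset.univ_nonempty
    -- new coefficients: y 0 = y' 0, y 1 = c, y (i+2) = y' (i+1)
    set c : ℝ := h (Fin.cons true v0) - L y' v0 with hc
    let y : Fin (n+1+1) → ℝ := Fin.cons (y' 0) (Fin.cons c (fun i : Fin n => y' i.succ))
    have hL : ∀ (b : Bool) (v : V n), L y (Fin.cons b v : V (n+1)) = L y' v + c * bv b := by
      intro b v
      simp only [L, Lx]
      rw [Fin.sum_univ_succ]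
      simp [y, e]
      ring
    let s : Fin (n+1+1) → V (n+1) := Fin.cons (Fin.cons true v0) (fun j => Fin.cons false (s' j))
    refine ⟨s, y, ?_, ?_, ?_⟩
    · apply nondeg_of
      intro z hz
      -- z restricted
      let z' : Fin (n+1) → ℝ := Fin.cons (z 0) (fun i : Fin n => z i.succ.succ)
      have hLz : ∀ (b : Bool) (v : V n), L z (Fin.cons b v : V (n+1)) = L z' v + z 1 * bv b := by
        intro b v
        simp only [L, Lx]
        rw [Fin.sum_univ_succ]
        simp [z', e]
        ring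
      have hz' : z' = 0 := by
        apply hs'.eq_zero
        intro j
        have := hz j.succ
        simp only [s, Fin.cons_succ, hLz, bv_false, mul_zero, add_zero] at this
        exact this
      have h0 := hz 0
      simp only [s, Fin.cons_zero, hLz, bv_true, mul_one] at h0
      have hL0 : L z' v0 = 0 := by rw [hz']; simp [L, Lx]
      rw [hL0, zero_add] at h0
      funext k
      refine Fin.cases ?_ (fun k => Fin.cases ?_ (fun k => ?_) k) k
      · have := congrFun hz' 0
        simpa [z'] using this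
      · simpa using h0
      · have := congrFun hz' k.succ
        simpa [z'] using this
    · intro j
      refine Fin.cases ?_ (fun j => ?_) j
      · simp only [s, Fin.cons_zero, hL, bv_true, mul_one, hc]; ring
      · simp only [s, Fin.cons_succ, hL, bv_false, mul_zero, add_zero]
        exact ht' j
    · intro v
      have hv : v = Fin.cons (v 0) (fun i : Fin n => v i.succ) := by
        funext i
        refine Fin.cases ?_ (fun i => ?_) i <;> simp
      rw [hv]
      generalize v 0 = b
      generalize (fun i : Fin n => v i.succ) = u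
      rw [hL]
      cases b
      · simp only [bv_false, mul_zero, add_zero]
        exact hf' u
      · simp only [bv_true, mul_one]
        have := hv0 u (Finset.mem_univ _)
        linarith

/-- the value at a point of the cube of an affine function that is `≤ 0` on the vertices -/
lemma Lx_nonpos {n : ℕ} {x : Fin n → ℝ} (h0 : ∀ i, 0 ≤ x i) (h1 : ∀ i, x i ≤ 1)
    {z : Fin (n+1) → ℝ} (hz : ∀ v : V n, L z v ≤ 0) : Lx z x ≤ 0 := by
  classical
  refine le_trans ?_ (hz (fun i => decide (0 < z i.succ)))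
  simp only [L, Lx]
  refine add_le_add le_rfl (Finset.sum_le_sum fun i _ => ?_)
  by_cases h : 0 < z i.succ
  · simp only [e, h, decide_true, bv_true]
    nlinarith [h1 i]
  · simp only [e, h, decide_false, bv_false]
    nlinarith [h0 i]

/-- genericity of heights -/
def Generic {n : ℕ} (h : V n → ℝ) : Prop :=
  ∀ s : Fin (n+1) → V n, Nondeg s → ∀ y, (∀ j, L y (s j) = h (s j)) →
    ∀ v, (∀ j, v ≠ s j) → L y v ≠ h v

/-- cells of the regular triangulation -/
def Good {n : ℕ} (h : V n → ℝ) (s : Fin (n+1) → V n) : Prop :=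
  Nondeg s ∧ ∃ y, (∀ j, L y (s j) = h (s j)) ∧ ∀ v, (∀ j, v ≠ s j) → L y v < h v

lemma good_of_feas {n : ℕ} {h : V n → ℝ} (hg : Generic h) {s : Fin (n+1) → V n}
    (hs : Nondeg s) {y : Fin (n+1) → ℝ} (hf : Feas h s y) : Good h s :=
  ⟨hs, y, hf.1, fun v hv => lt_of_le_of_ne (hf.2 v) (hg s hs y hf.1 v hv)⟩

/-- pivoting: the barycentric coordinates of `x` in the optimal cell are nonnegative -/
lemma exists_good_cell {n : ℕ} {h : V n → ℝ} (hg : Generic h) {x : Fin n → ℝ}
    (h0 : ∀ i, 0 ≤ x i) (h1 : ∀ i, x i ≤ 1) :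
    ∃ s, Good h s ∧ ∃ a : Fin (n+1) → ℝ, (∀ j, 0 ≤ a j) ∧ ∑ j, a j = 1 ∧
      ∀ i, ∑ j, a j * e (s j) i = x i := by
  classical
  let F : Finset (Fin (n+1) → V n) :=
    Finset.univ.filter fun s => Nondeg s ∧ ∃ y, Feas h s y
  let Y : (Fin (n+1) → V n) → (Fin (n+1) → ℝ) := fun s =>
    if hh : ∃ y, Feas h s y then hh.choose else 0
  have hY : ∀ s ∈ F, Feas h s (Y s) := by
    intro s hs
    have hh : ∃ y, Feas h s y := (Finset.mem_filter.1 hs).2.2
    simp only [Y, dif_pos hh]
    exact hh.choose_spec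
  have hne : F.Nonempty := by
    obtain ⟨s, y, hs, hf⟩ := exists_init n h
    exact ⟨s, by simp only [F, Finset.mem_filter, Finset.mem_univ, true_and]; exact ⟨hs, y, hf⟩⟩
  obtain ⟨s, hsF, hmax⟩ := Finset.exists_max_image F (fun s => Lx (Y s) x) hne
  have hs : Nondeg s := (Finset.mem_filter.1 hsF).2.1
  have hfe := hY s hsF
  set y := Y s with hy
  refine ⟨s, good_of_feas hg hs hfe, ?_⟩
  obtain ⟨a, ha1, ha2⟩ := hs.bary x
  refine ⟨a, ?_, ha1, ha2⟩
  by_contra hneg
  push Not at hneg
  obtain ⟨j0, hj0⟩ := hneg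
  -- the direction
  obtain ⟨z, hz⟩ := hs.solve (fun j => if j = j0 then -1 else 0)
  have hzx : Lx z x = - a j0 := by
    rw [Lx_bary ha1 ha2 z]
    simp [hz]
  have hzpos : ∃ v, 0 < L z v := by
    by_contra hcon
    push Not at hcon
    have := Lx_nonpos h0 h1 hcon
    linarith
  let P : Finset (V n) := Finset.univ.filter fun v => 0 < L z v
  have hPne : P.Nonempty := by
    obtain ⟨v, hv⟩ := hzpos
    exact ⟨v, by simp [P, hv]⟩
  obtain ⟨v0, hv0P, hv0⟩ := Finset.exists_min_image P (fun v => (h v - L y v) / L z v) hPne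
  have hv0pos : 0 < L z v0 := by simpa [P] using hv0P
  set t := (h v0 - L y v0) / L z v0 with ht
  have hv0s : ∀ j, v0 ≠ s j := by
    intro j hj
    rw [hj, hz] at hv0pos
    split_ifs at hv0pos <;> linarith
  have htpos : 0 < t := by
    apply div_pos _ hv0pos
    have := lt_of_le_of_ne (hfe.2 v0) (hg s hs y hfe.1 v0 hv0s)
    linarith
  let s' : Fin (n+1) → V n := Function.update s j0 v0
  let y' : Fin (n+1) → ℝ := y + t • z
  have hLy' : ∀ v, L y' v = L y v + t * L z v := fun v => by
    simp only [y', L_add, L_smul]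
  have hs' : Nondeg s' := by
    apply nondeg_of
    intro z' hz'
    have hz'j : ∀ j, j ≠ j0 → L z' (s j) = 0 := by
      intro j hj
      have := hz' j
      simpa [s', Function.update_of_ne hj] using this
    have hz'v : L z' v0 = 0 := by
      have := hz' j0
      simpa [s'] using this
    have hcomb : z' + (L z' (s j0)) • z = 0 := by
      apply hs.eq_zero
      intro j
      rw [L_add, L_smul, hz]
      by_cases hj : j = j0
      · subst hj; simp
      · simp [hj, hz'j j hj]
    have hc : L z' (s j0) * L z v0 = 0 := by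
      have := congrArg (fun q => L q v0) hcomb
      simp only [L_add, L_smul, hz'v, zero_add] at this
      rw [this]; simp [L, Lx]
    have hc0 : L z' (s j0) = 0 := by
      rcases mul_eq_zero.1 hc with hc | hc
      · exact hc
      · exact absurd hc hv0pos.ne'
    apply hs.eq_zero
    intro j
    by_cases hj : j = j0
    · rw [hj, hc0]
    · exact hz'j j hj
  have hfeas' : Feas h s' y' := by
    refine ⟨fun j => ?_, fun v => ?_⟩
    · rw [hLy']
      by_cases hj : j = j0
      · subst hj
        simp only [s', Function.update_self, ht]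
        field_simp
        ring
      · simp only [s', Function.update_of_ne hj, hz, if_neg hj, mul_zero, add_zero]
        exact hfe.1 j
    · rw [hLy']
      by_cases hv : 0 < L z v
      · have := hv0 v (by simp [P, hv])
        rw [le_div_iff₀ hv] at this
        linarith
      · push Not at hv
        have := hfe.2 v
        nlinarith
  have hs'F : s' ∈ F := by
    simp only [F, Finset.mem_filter, Finset.mem_univ, true_and]
    exact ⟨hs', y', hfeas'⟩
  have hYs' : Y s' = y' := hs'.unique fun j => by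
    rw [(hY s' hs'F).1 j, hfeas'.1 j]
  have hm := hmax s' hs'F
  simp only [hYs'] at hm
  have : Lx y' x = Lx y x + t * Lx z x := by simp only [y', Lx_add, Lx_smul]
  rw [this, hzx] at hm
  nlinarith

/-- if two good cells share a point then the support of its coordinates in the first
is contained in the second -/
lemma good_support {n : ℕ} {h : V n → ℝ} {s s' : Fin (n+1) → V n}
    (hs : Good h s) (hs' : Good h s') {x : Fin n → ℝ} {a b : Fin (n+1) → ℝ}
    (ha0 : ∀ j, 0 ≤ a j) (ha1 : ∑ j, a j = 1) (ha2 : ∀ i, ∑ j, a j * e (s j) i = x i)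
    (hb0 : ∀ j, 0 ≤ b j) (hb1 : ∑ j, b j = 1) (hb2 : ∀ i, ∑ j, b j * e (s' j) i = x i)
    (j : Fin (n+1)) (hj : a j ≠ 0) : ∃ k, s j = s' k := by
  classical
  obtain ⟨-, y, hy1, hy2⟩ := hs
  obtain ⟨-, y', hy1', hy2'⟩ := hs'
  by_contra hcon
  push Not at hcon
  have hle : ∀ v, L y v ≤ h v := by
    intro v
    by_cases hv : ∀ j, v ≠ s j
    · exact (hy2 v hv).le
    · push Not at hv
      obtain ⟨j, rfl⟩ := hv
      exact (hy1 j).le
  have hle' : ∀ v, L y' v ≤ h v := by
    intro v
    by_cases hv : ∀ j, v ≠ s' j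
    · exact (hy2' v hv).le
    · push Not at hv
      obtain ⟨j, rfl⟩ := hv
      exact (hy1' j).le
  have e1 : Lx y x = ∑ j, a j * h (s j) := by
    rw [Lx_bary ha1 ha2]; simp only [hy1]
  have e2 : Lx y' x = ∑ j, b j * h (s' j) := by
    rw [Lx_bary hb1 hb2]; simp only [hy1']
  have e3 : Lx y x ≤ ∑ j, b j * h (s' j) := by
    rw [Lx_bary hb1 hb2]
    exact Finset.sum_le_sum fun j _ => mul_le_mul_of_nonneg_left (hle _) (hb0 j)
  have e4 : Lx y' x < ∑ j, a j * h (s j) := by
    rw [Lx_bary ha1 ha2]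
    refine Finset.sum_lt_sum (fun j _ => mul_le_mul_of_nonneg_left (hle' _) (ha0 j))
      ⟨j, Finset.mem_univ _, ?_⟩
    exact mul_lt_mul_of_pos_left (hy2' _ hcon) (lt_of_le_of_ne (ha0 j) (Ne.symm hj))
  linarith

end Pool.R178
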