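import Mathlib
import Pool.Agent.R178.CubeGeom

/-!
# Second moment of the determinant
-/

set_option autoImplicit false

namespace Pool.R178

open Finset

/-- Cauchy–Binet type identity: second moment of a random determinant with i.i.d. rows. -/
lemma sum_det_sq {W : Type*} [Fintype W] {m : ℕ} (u : W → Fin m → ℝ) (q : W → ℝ) :
    ∑ s : Fin m → W, (Matrix.of fun j k => u (s j) k).det ^ 2 * ∏ j, q (s j) =
      (m.factorial : ℝ) * (Matrix.of fun a b => ∑ v, q v * u v a * u v b).det := by
  classical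
  have h1 : ∀ s : Fin m → W, (Matrix.of fun j k => u (s j) k).det ^ 2 * ∏ j, q (s j) =
      ∑ τ : Equiv.Perm (Fin m), ∑ σ : Equiv.Perm (Fin m),
        ((Equiv.Perm.sign σ : ℤ) : ℝ) * ((Equiv.Perm.sign τ : ℤ) : ℝ) *
          ∏ j, (q (s j) * u (s j) (σ j) * u (s j) (τ j)) := by
    intro s
    have hd : (Matrix.of fun j k => u (s j) k).det =
        ∑ σ : Equiv.Perm (Fin m), ((Equiv.Perm.sign σ : ℤ) : ℝ) * ∏ j, u (s j) (σ j) := by
      rw [← Matrix.det_transpose, Matrix.det_apply']
      rfl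
    rw [pow_two]
    nth_rewrite 1 [hd]
    rw [hd, Finset.sum_mul_sum, Finset.sum_mul, Finset.sum_comm]
    simp only [Finset.sum_mul]
    refine Finset.sum_congr rfl fun τ _ => ?_
    refine Finset.sum_congr rfl fun σ _ => ?_
    rw [Finset.prod_mul_distrib, Finset.prod_mul_distrib]
    ring
  simp only [h1]
  rw [Finset.sum_comm]
  have h2 : ∀ τ : Equiv.Perm (Fin m), ∑ s : Fin m → W, ∑ σ : Equiv.Perm (Fin m),
        ((Equiv.Perm.sign σ : ℤ) : ℝ) * ((Equiv.Perm.sign τ : ℤ) : ℝ) *
          ∏ j, (q (s j) * u (s j) (σ j) * u (s j) (τ j)) =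
      (Matrix.of fun a b => ∑ v, q v * u v a * u v b).det := by
    intro τ
    rw [Finset.sum_comm, Matrix.det_apply']
    rw [← Equiv.sum_comp (Equiv.mulRight τ)]
    refine Finset.sum_congr rfl fun σ _ => ?_
    rw [← Finset.mul_sum]
    have h3 : ∑ s : Fin m → W, ∏ j, (q (s j) * u (s j) ((Equiv.mulRight τ σ) j) * u (s j) (τ j)) =
        ∏ j, ∑ v, (q v * u v ((Equiv.mulRight τ σ) j) * u v (τ j)) := by
      rw [Fintype.prod_sum]
    rw [h3]
    have h4 : ∏ j, ∑ v, (q v * u v ((Equiv.mulRight τ σ) j) * u v (τ j)) =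
        ∏ k, ∑ v, (q v * u v (σ k) * u v k) := by
      rw [← Equiv.prod_comp τ (fun k => ∑ v, (q v * u v (σ k) * u v k))]
      rfl
    rw [h4]
    have h5 : (((Equiv.Perm.sign ((Equiv.mulRight τ) σ) : ℤ) : ℝ)) *
        ((Equiv.Perm.sign τ : ℤ) : ℝ) = ((Equiv.Perm.sign σ : ℤ) : ℝ) := by
      have : (Equiv.mulRight τ) σ = σ * τ := rfl
      rw [this, Equiv.Perm.sign_mul]
      push_cast
      rw [mul_assoc, ← Int.cast_mul, ← Units.val_mul, Int.units_mul_self]
      simp
    rw [h5]
    rfl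
  simp only [h2]
  rw [Finset.sum_const, Finset.card_univ, Fintype.card_perm, Fintype.card_fin, nsmul_eq_mul]

/-- logistic function -/
noncomputable def lp (t : ℝ) : ℝ := Real.exp t / (1 + Real.exp t)

lemma lp_mul (t : ℝ) : Real.exp t * (1 - lp t) = lp t := by
  have : (1 + Real.exp t) ≠ 0 := by positivity
  unfold lp
  field_simp
  ring

/-- total weight -/
noncomputable def GG {n : ℕ} (y : Fin (n+1) → ℝ) : ℝ := ∑ v : V n, Real.exp (L y v)

lemma exp_L {n : ℕ} (y : Fin (n+1) → ℝ) (v : V n) :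
    Real.exp (L y v) = Real.exp (y 0) * ∏ i, Real.exp (y i.succ * bv (v i)) := by
  simp only [L, Lx, e, Real.exp_add, Real.exp_sum]

lemma sum_exp_mul {n : ℕ} (y : Fin (n+1) → ℝ) (f : Fin n → Bool → ℝ) :
    ∑ v : V n, Real.exp (L y v) * ∏ i, f i (v i) =
      Real.exp (y 0) * ∏ i, (f i false + Real.exp (y i.succ) * f i true) := by
  simp only [exp_L, mul_assoc, ← Finset.prod_mul_distrib]
  rw [← Finset.mul_sum]
  congr 1
  rw [← Fintype.prod_sum (fun i b => Real.exp (y i.succ * bv b) * f i b)]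
  refine Finset.prod_congr rfl fun i _ => ?_
  rw [Fintype.sum_bool]
  simp
  ring

lemma GG_eq {n : ℕ} (y : Fin (n+1) → ℝ) :
    GG y = Real.exp (y 0) * ∏ i : Fin n, (1 + Real.exp (y i.succ)) := by
  have := sum_exp_mul y (fun _ _ => 1)
  simpa [GG] using this

/-- centered homogeneous coordinates -/
noncomputable def uc {n : ℕ} (y : Fin (n+1) → ℝ) (v : V n) : Fin (n+1) → ℝ :=
  Fin.cons 1 (fun i => bv (v i) - lp (y i.succ))

lemma det_M_eq {n : ℕ} (y : Fin (n+1) → ℝ) (s : Fin (n+1) → V n) :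
    (M s).det = (Matrix.of fun j k => uc y (s j) k).det := by
  rw [← Matrix.det_transpose, ← Matrix.det_transpose (Matrix.of fun j k => uc y (s j) k)]
  symm
  apply Matrix.det_eq_of_forall_row_eq_smul_add_const
    (Fin.cons 0 (fun i => - lp (y (Fin.succ i)))) 0 (by simp)
  intro i j
  refine Fin.cases ?_ (fun i => ?_) i
  · simp [M, uc]
  · simp [M, uc, e]
    ring

lemma gram_zero_succ {n : ℕ} (y : Fin (n+1) → ℝ) (i : Fin n) :
    ∑ v : V n, Real.exp (L y v) * (bv (v i) - lp (y i.succ)) = 0 := by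
  classical
  have h := sum_exp_mul y (fun l b => if l = i then bv b - lp (y i.succ) else 1)
  simp only [Finset.prod_ite_eq', Finset.mem_univ, if_true] at h
  rw [h, mul_eq_zero]
  right
  apply Finset.prod_eq_zero (Finset.mem_univ i)
  simp only [if_true, bv_false, bv_true]
  rw [lp_mul]; ring

lemma gram_succ_succ_ne {n : ℕ} (y : Fin (n+1) → ℝ) {i k : Fin n} (hik : i ≠ k) :
    ∑ v : V n, Real.exp (L y v) * ((bv (v i) - lp (y i.succ)) * (bv (v k) - lp (y k.succ))) = 0 := by
  classical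
  have h := sum_exp_mul y (fun l b => (if l = i then bv b - lp (y i.succ) else 1) *
    (if l = k then bv b - lp (y k.succ) else 1))
  simp only [Finset.prod_mul_distrib, Finset.prod_ite_eq', Finset.mem_univ, if_true] at h
  rw [h, mul_eq_zero]
  right
  apply Finset.prod_eq_zero (Finset.mem_univ i)
  simp only [if_true, bv_false, bv_true, if_neg hik, mul_one]
  rw [lp_mul]; ring

lemma gram_succ_succ_eq {n : ℕ} (y : Fin (n+1) → ℝ) (i : Fin n) :
    ∑ v : V n, Real.exp (L y v) * ((bv (v i) - lp (y i.succ)) * (bv (v i) - lp (y i.succ))) =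
      GG y * (lp (y i.succ) * (1 - lp (y i.succ))) := by
  classical
  have h := sum_exp_mul y (fun l b => (if l = i then (bv b - lp (y i.succ)) *
    (bv b - lp (y i.succ)) else 1))
  simp only [Finset.prod_ite_eq', Finset.mem_univ, if_true] at h
  rw [h, GG_eq, mul_assoc]
  congr 1
  have h2 : ∀ l : Fin n, ((if l = i then (bv false - lp (y i.succ)) * (bv false - lp (y i.succ))
      else 1) + Real.exp (y l.succ) * (if l = i then (bv true - lp (y i.succ)) *
        (bv true - lp (y i.succ)) else 1)) =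
      (1 + Real.exp (y l.succ)) * (if l = i then lp (y i.succ) * (1 - lp (y i.succ)) else 1) := by
    intro l
    by_cases hl : l = i
    · subst hl
      simp only [if_true, bv_false, bv_true]
      have := lp_mul (y l.succ)
      have h3 : Real.exp (y l.succ) * ((1 - lp (y l.succ)) * (1 - lp (y l.succ))) =
        lp (y l.succ) * (1 - lp (y l.succ)) := by rw [← mul_assoc, this]
      have h4 : (1 + Real.exp (y l.succ)) * (lp (y l.succ) * (1 - lp (y l.succ))) =
        lp (y l.succ) * (1 - lp (y l.succ)) + lp (y l.succ) * (Real.exp (y l.succ) *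
          (1 - lp (y l.succ))) := by ring
      rw [h3, h4, this]
      ring
    · simp [hl]
  simp only [h2, Finset.prod_mul_distrib, Finset.prod_ite_eq', Finset.mem_univ, if_true]

lemma det_gram {n : ℕ} (y : Fin (n+1) → ℝ) :
    (Matrix.of fun a b => ∑ v : V n, Real.exp (L y v) * uc y v a * uc y v b).det =
      GG y ^ (n+1) * ∏ i : Fin n, (lp (y i.succ) * (1 - lp (y i.succ))) := by
  have : (Matrix.of fun a b => ∑ v : V n, Real.exp (L y v) * uc y v a * uc y v b) =
      Matrix.diagonal (Fin.cons (GG y) (fun i : Fin n => GG y *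
        (lp (y i.succ) * (1 - lp (y i.succ))))) := by
    ext a b
    refine Fin.cases ?_ (fun i => ?_) a <;> refine Fin.cases ?_ (fun k => ?_) b
    · simp [uc, GG]
    · have := gram_zero_succ y k
      simp [uc, this, (Fin.succ_ne_zero k).symm]
    · have := gram_zero_succ y i
      simp [uc, this, (Fin.succ_ne_zero i)]
    · by_cases hik : i = k
      · subst hik
        have := gram_succ_succ_eq y i
        simp only [mul_assoc, uc, Fin.cons_succ, Matrix.of_apply, Matrix.diagonal_apply_eq]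
        exact this
      · have := gram_succ_succ_ne y hik
        have hne : i.succ ≠ k.succ := fun h => hik (Fin.succ_injective _ h)
        simp only [mul_assoc, uc, Fin.cons_succ, Matrix.of_apply, Matrix.diagonal_apply_ne _ hne]
        exact this
  rw [this, Matrix.det_diagonal, Fin.prod_univ_succ]
  simp only [Fin.cons_zero, Fin.cons_succ, Finset.prod_mul_distrib, Finset.prod_const,
    Finset.card_univ, Fintype.card_fin]
  ring

/-- square root of the variance -/
noncomputable def sg (t : ℝ) : ℝ := Real.exp (t/2) / (1 + Real.exp t)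

lemma sg_nonneg (t : ℝ) : 0 ≤ sg t := by unfold sg; positivity

lemma sg_sq (t : ℝ) : sg t ^ 2 = lp t * (1 - lp t) := by
  have : (1 + Real.exp t) ≠ 0 := by positivity
  unfold sg lp
  have h2 : Real.exp (t/2) ^ 2 = Real.exp t := by
    rw [pow_two, ← Real.exp_add]; congr 1; ring
  rw [div_pow, h2]
  field_simp
  ring

lemma sum_abs_det_le {n : ℕ} (y : Fin (n+1) → ℝ) :
    ∑ s : Fin (n+1) → V n, |(M s).det| * ∏ j, Real.exp (L y (s j)) ≤
      Real.sqrt ((n+1).factorial : ℝ) * GG y ^ (n+1) * ∏ i : Fin n, sg (y i.succ) := by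
  have hG : 0 ≤ GG y := Finset.sum_nonneg fun v _ => (Real.exp_pos _).le
  have hs : 0 ≤ ∏ i : Fin n, sg (y i.succ) := Finset.prod_nonneg fun i _ => sg_nonneg _
  have h1 : (∑ s : Fin (n+1) → V n, |(M s).det| * ∏ j, Real.exp (L y (s j))) ^ 2 ≤
      (∑ s : Fin (n+1) → V n, (M s).det ^ 2 * ∏ j, Real.exp (L y (s j))) *
        ∑ s : Fin (n+1) → V n, ∏ j, Real.exp (L y (s j)) := by
    apply Finset.sum_sq_le_sum_mul_sum_of_sq_le_mul
    · intro s _; positivity
    · intro s _; positivity
    · intro s _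
      rw [mul_pow, sq_abs]
      apply le_of_eq
      ring
  have h2 : ∑ s : Fin (n+1) → V n, ∏ j, Real.exp (L y (s j)) = GG y ^ (n+1) := by
    rw [GG, Fintype.sum_pow]
  have h3 : ∑ s : Fin (n+1) → V n, (M s).det ^ 2 * ∏ j, Real.exp (L y (s j)) =
      ((n+1).factorial : ℝ) * (GG y ^ (n+1) * ∏ i : Fin n, (lp (y i.succ) * (1 - lp (y i.succ)))) := by
    rw [← det_gram, ← sum_det_sq]
    refine Finset.sum_congr rfl fun s _ => ?_
    rw [det_M_eq y s]
  rw [h2, h3] at h1
  have h4 : (Real.sqrt ((n+1).factorial : ℝ) * GG y ^ (n+1) * ∏ i : Fin n, sg (y i.succ)) ^ 2 =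
      ((n+1).factorial : ℝ) * (GG y ^ (n+1) * ∏ i : Fin n, (lp (y i.succ) * (1 - lp (y i.succ)))) *
        GG y ^ (n+1) := by
    rw [mul_pow, mul_pow, Real.sq_sqrt (by positivity), ← Finset.prod_pow]
    simp only [sg_sq]
    ring
  rw [← h4] at h1
  exact (abs_le_of_sq_le_sq' h1 (by positivity)).2

end Pool.R178
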