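import Mathlib
import Pool.Agent.R178.CubeAlg

/-!
# Integrals: Gumbel density, products, Gamma integral
-/

set_option autoImplicit false

namespace Pool.R178

open MeasureTheory Set Finset

/-- Gumbel-type density -/
noncomputable def gd (x : ℝ) : ENNReal := ENNReal.ofReal (Real.exp x * Real.exp (-Real.exp x))

lemma measurable_gd : Measurable gd := by
  unfold gd; fun_prop

/-- the law of one height -/
noncomputable def nu : Measure ℝ := volume.withDensity gd

lemma hasDerivAt_F (x : ℝ) : HasDerivAt (fun x => - Real.exp (-Real.exp x))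
    (Real.exp x * Real.exp (-Real.exp x)) x := by
  have h1 : HasDerivAt (fun x => -Real.exp x) (-Real.exp x) x := (Real.hasDerivAt_exp x).neg
  have h2 := (h1.exp).neg
  have h3 : -(Real.exp (-Real.exp x) * -Real.exp x) = Real.exp x * Real.exp (-Real.exp x) := by
    ring
  rw [← h3]
  exact h2

lemma monotone_F : Monotone (fun x : ℝ => - Real.exp (-Real.exp x)) := by
  intro x y hxy
  simp only
  gcongr

lemma nu_apply_eq {s : Set ℝ} (hs : MeasurableSet s) :
    nu s = volume ((fun x : ℝ => - Real.exp (-Real.exp x)) '' s) := by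
  rw [nu, withDensity_apply _ hs,
    ← lintegral_deriv_eq_volume_image_of_monotoneOn hs
      (fun x _ => (hasDerivAt_F x).hasDerivWithinAt) (monotone_F.monotoneOn s)]
  rfl

lemma nu_Ioi (a : ℝ) : nu (Ioi a) ≤ ENNReal.ofReal (Real.exp (-Real.exp a)) := by
  rw [nu_apply_eq measurableSet_Ioi]
  have : (fun x : ℝ => - Real.exp (-Real.exp x)) '' (Ioi a) ⊆ Set.Ioo (-Real.exp (-Real.exp a)) 0 := by
    rintro _ ⟨x, hx, rfl⟩
    have hx' : a < x := hx
    constructor
    · simp only
      gcongr
    · simp only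
      have := Real.exp_pos (-Real.exp x)
      linarith
  refine (measure_mono this).trans ?_
  rw [Real.volume_Ioo]
  simp

lemma nu_univ : nu univ = 1 := by
  rw [nu_apply_eq MeasurableSet.univ]
  have : (fun x : ℝ => - Real.exp (-Real.exp x)) '' univ = Set.Ioo (-1) 0 := by
    apply Set.Subset.antisymm
    · rintro _ ⟨x, hx, rfl⟩
      have h1 := Real.exp_pos (-Real.exp x)
      have h2 : Real.exp (-Real.exp x) < 1 := by
        rw [Real.exp_lt_one_iff]
        have := Real.exp_pos x
        linarith
      constructor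
      · simp only; linarith
      · simp only; linarith
    · rintro z ⟨hz1, hz2⟩
      refine ⟨Real.log (-Real.log (-z)), mem_univ _, ?_⟩
      simp only
      have h1 : 0 < -Real.log (-z) := by
        have := Real.log_neg (x := -z) (by linarith) (by linarith)
        linarith
      rw [Real.exp_log h1, neg_neg, Real.exp_log (by linarith), neg_neg]
  rw [this, Real.volume_Ioo]
  simp

instance : IsProbabilityMeasure nu := ⟨nu_univ⟩

instance : NullSingletonClass nu := by
  unfold nu
  infer_instance

/-- product of one-variable integrals -/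
lemma lintegral_fin_prod : ∀ (m : ℕ) (f : Fin m → ℝ → ENNReal) (_ : ∀ i, Measurable (f i)),
    ∫⁻ a : Fin m → ℝ, ∏ i, f i (a i) = ∏ i, ∫⁻ x, f i x
  | 0, f, _ => by simp [volume_pi]
  | m+1, f, hf => by
    have h := (volume_preserving_piFinSuccAbove (fun _ : Fin (m+1) => ℝ) 0).symm
    rw [← h.lintegral_comp (by fun_prop)]
    rw [Fin.prod_univ_succ, ← lintegral_fin_prod m (fun i => f i.succ) (fun i => hf i.succ)]
    have h2 : (volume : Measure (ℝ × (Fin m → ℝ))) = (volume : Measure ℝ).prod volume := rfl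
    rw [h2, ← lintegral_prod_mul (hf 0).aemeasurable (by
      apply Measurable.aemeasurable
      exact Finset.measurable_prod _ fun i _ => (hf i.succ).comp (measurable_pi_apply i))]
    refine lintegral_congr fun p => ?_
    rw [Fin.prod_univ_succ]
    simp [MeasurableEquiv.piFinSuccAbove]

lemma pi_nu (m : ℕ) : Measure.pi (fun _ : Fin m => nu) =
    (volume : Measure (Fin m → ℝ)).withDensity (fun a => ∏ i, gd (a i)) := by
  apply Measure.pi_eq
  intro s hs
  have hms : MeasurableSet (Set.pi univ s) := MeasurableSet.univ_pi hs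
  rw [withDensity_apply _ hms, ← lintegral_indicator hms]
  have h1 : ∀ a : Fin m → ℝ, (Set.pi univ s).indicator (fun a => ∏ i, gd (a i)) a =
      ∏ i, (s i).indicator gd (a i) := by
    intro a
    by_cases ha : a ∈ Set.pi univ s
    · rw [indicator_of_mem ha]
      refine Finset.prod_congr rfl fun i _ => ?_
      rw [indicator_of_mem (ha i (mem_univ i))]
    · rw [indicator_of_notMem ha]
      have : ∃ i, a i ∉ s i := by
        by_contra hcon
        push Not at hcon
        exact ha fun i _ => hcon i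
      obtain ⟨i, hi⟩ := this
      symm
      apply Finset.prod_eq_zero (Finset.mem_univ i)
      rw [indicator_of_notMem hi]
  rw [lintegral_congr h1, lintegral_fin_prod m (fun i => (s i).indicator gd)
    (fun i => measurable_gd.indicator (hs i))]
  refine Finset.prod_congr rfl fun i _ => ?_
  rw [lintegral_indicator (hs i), nu, withDensity_apply _ (hs i)]

lemma lintegral_pi_nu {m : ℕ} {g : (Fin m → ℝ) → ENNReal} (hg : Measurable g) :
    ∫⁻ a, g a ∂(Measure.pi fun _ : Fin m => nu) = ∫⁻ a, (∏ i, gd (a i)) * g a := by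
  rw [pi_nu, lintegral_withDensity_eq_lintegral_mul _ _ hg]
  · rfl
  · have := measurable_gd
    fun_prop

/-- the Gamma integral in exponential coordinates -/
lemma lintegral_gamma_exp (n : ℕ) {c : ℝ} (hc : 0 < c) :
    ∫⁻ t : ℝ, ENNReal.ofReal ((Real.exp t * c) ^ (n+1) * Real.exp (-(Real.exp t * c))) ≤
      ENNReal.ofReal (n.factorial : ℝ) := by
  have hmono : StrictMono (fun t : ℝ => Real.exp t * c) := by
    intro a b hab
    simp only
    gcongr
  have h := lintegral_image_eq_lintegral_abs_deriv_mul (s := univ) (f := fun t => Real.exp t * c)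
    (f' := fun t => Real.exp t * c) MeasurableSet.univ
    (fun t _ => ((Real.hasDerivAt_exp t).mul_const c).hasDerivWithinAt)
    (hmono.injective.injOn)
    (fun x => ENNReal.ofReal (x ^ n * Real.exp (-x)))
  have h1 : ∀ t : ℝ, ENNReal.ofReal |Real.exp t * c| *
      ENNReal.ofReal ((Real.exp t * c) ^ n * Real.exp (-(Real.exp t * c))) =
      ENNReal.ofReal ((Real.exp t * c) ^ (n+1) * Real.exp (-(Real.exp t * c))) := by
    intro t
    rw [← ENNReal.ofReal_mul (abs_nonneg _), abs_of_pos (by positivity)]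
    congr 1
    ring
  simp only [h1, Measure.restrict_univ] at h
  rw [← h]
  have h2 : (fun t : ℝ => Real.exp t * c) '' univ ⊆ Ioi 0 := by
    rintro _ ⟨t, _, rfl⟩
    exact mul_pos (Real.exp_pos t) hc
  refine (lintegral_mono_set h2).trans ?_
  have hn : (0:ℝ) < n + 1 := by positivity
  have hint := Real.GammaIntegral_convergent hn
  have heq : ∀ x ∈ Ioi (0:ℝ), Real.exp (-x) * x ^ ((n:ℝ) + 1 - 1) = x ^ n * Real.exp (-x) := by
    intro x _
    rw [add_sub_cancel_right, Real.rpow_natCast]; ring
  have hint2 : IntegrableOn (fun x : ℝ => x ^ n * Real.exp (-x)) (Ioi 0) :=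
    hint.congr_fun heq measurableSet_Ioi
  rw [← ofReal_integral_eq_lintegral_ofReal hint2]
  · rw [← setIntegral_congr_fun measurableSet_Ioi heq, ← Real.Gamma_eq_integral hn,
      Real.Gamma_nat_eq_factorial]
  · refine (ae_restrict_iff' measurableSet_Ioi).2 (Filter.Eventually.of_forall fun x hx => ?_)
    have : (0:ℝ) < x := hx
    simp only [Pi.zero_apply]
    positivity

lemma lintegral_sg : ∫⁻ t : ℝ, ENNReal.ofReal (sg t) ≤ ENNReal.ofReal Real.pi := by
  have hd : ∀ t : ℝ, HasDerivAt (fun t => 2 * Real.arctan (Real.exp (t/2))) (sg t) t := by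
    intro t
    have h1 : HasDerivAt (fun t : ℝ => t/2) (1/2) t := (hasDerivAt_id t).div_const 2
    have h2 := ((h1.exp).arctan).const_mul 2
    have h3 : Real.exp (t/2) ^ 2 = Real.exp t := by
      rw [pow_two, ← Real.exp_add]; congr 1; ring
    have h4 : 2 * (1 / (1 + Real.exp (t/2) ^ 2) * (Real.exp (t/2) * (1/2))) = sg t := by
      rw [h3]; unfold sg; ring
    rw [← h4]
    exact h2
  have hm : Monotone (fun t : ℝ => 2 * Real.arctan (Real.exp (t/2))) := by
    intro a b hab
    simp only
    have := Real.arctan_strictMono.monotone (Real.exp_le_exp.2 (by linarith : a/2 ≤ b/2))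
    linarith
  have h := lintegral_deriv_eq_volume_image_of_monotoneOn (s := univ) MeasurableSet.univ
    (fun t _ => (hd t).hasDerivWithinAt) (hm.monotoneOn _)
  rw [Measure.restrict_univ] at h
  rw [h]
  have h2 : (fun t : ℝ => 2 * Real.arctan (Real.exp (t/2))) '' univ ⊆ Set.Ioo 0 Real.pi := by
    rintro _ ⟨t, _, rfl⟩
    have h3 := Real.arctan_lt_pi_div_two (Real.exp (t/2))
    have h4 : 0 < Real.arctan (Real.exp (t/2)) := by
      rw [← Real.arctan_zero]
      exact Real.arctan_strictMono (Real.exp_pos _)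
    constructor
    · simp only; linarith
    · simp only; linarith
  refine (measure_mono h2).trans ?_
  rw [Real.volume_Ioo]
  simp

lemma measurable_sg : Measurable sg := by
  unfold sg; fun_prop

/-- the full integral -/
lemma lintegral_main (n : ℕ) :
    ∫⁻ y : Fin (n+1) → ℝ, ENNReal.ofReal (Real.sqrt ((n+1).factorial : ℝ) * GG y ^ (n+1) *
        (∏ i : Fin n, sg (y i.succ)) * Real.exp (-GG y)) ≤
      ENNReal.ofReal (Real.sqrt ((n+1).factorial : ℝ) * (n.factorial : ℝ) * Real.pi ^ n) := by
  have h := (volume_preserving_piFinSuccAbove (fun _ : Fin (n+1) => ℝ) 0).symm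
  have hmeas : Measurable (fun y : Fin (n+1) → ℝ =>
      ENNReal.ofReal (Real.sqrt ((n+1).factorial : ℝ) * GG y ^ (n+1) *
        (∏ i : Fin n, sg (y i.succ)) * Real.exp (-GG y))) := by
    have := measurable_sg
    simp only [GG_eq]
    fun_prop
  rw [← h.lintegral_comp hmeas]
  have h2 : (volume : Measure (ℝ × (Fin n → ℝ))) = (volume : Measure ℝ).prod volume := rfl
  rw [h2, lintegral_prod_symm _ (by
    apply Measurable.aemeasurable
    exact hmeas.comp (MeasurableEquiv.measurable _))]
  -- pointwise form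
  have h3 : ∀ (z : Fin n → ℝ) (t : ℝ),
      ENNReal.ofReal (Real.sqrt ((n+1).factorial : ℝ) *
        GG ((MeasurableEquiv.piFinSuccAbove (fun _ : Fin (n+1) => ℝ) 0).symm (t, z)) ^ (n+1) *
        (∏ i : Fin n, sg ((MeasurableEquiv.piFinSuccAbove
          (fun _ : Fin (n+1) => ℝ) 0).symm (t, z) i.succ)) *
        Real.exp (-GG ((MeasurableEquiv.piFinSuccAbove (fun _ : Fin (n+1) => ℝ) 0).symm (t, z)))) =
      (ENNReal.ofReal (Real.sqrt ((n+1).factorial : ℝ)) * ∏ i, ENNReal.ofReal (sg (z i))) *
        ENNReal.ofReal ((Real.exp t * ∏ i : Fin n, (1 + Real.exp (z i))) ^ (n+1) *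
          Real.exp (-(Real.exp t * ∏ i : Fin n, (1 + Real.exp (z i))))) := by
    intro z t
    have hcons : (MeasurableEquiv.piFinSuccAbove (fun _ : Fin (n+1) => ℝ) 0).symm (t, z) =
        (Fin.cons t z : Fin (n+1) → ℝ) := by
      simp [MeasurableEquiv.piFinSuccAbove]
      rfl
    rw [hcons, GG_eq]
    simp only [Fin.cons_zero, Fin.cons_succ]
    rw [← ENNReal.ofReal_prod_of_nonneg (fun i _ => sg_nonneg _),
      ← ENNReal.ofReal_mul (by positivity), ← ENNReal.ofReal_mul (by
        have : 0 ≤ ∏ i : Fin n, sg (z i) := Finset.prod_nonneg fun i _ => sg_nonneg _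
        positivity)]
    congr 1
    ring
  simp only [h3]
  calc ∫⁻ z : Fin n → ℝ, ∫⁻ t : ℝ, (ENNReal.ofReal (Real.sqrt ((n+1).factorial : ℝ)) *
        ∏ i, ENNReal.ofReal (sg (z i))) *
        ENNReal.ofReal ((Real.exp t * ∏ i : Fin n, (1 + Real.exp (z i))) ^ (n+1) *
          Real.exp (-(Real.exp t * ∏ i : Fin n, (1 + Real.exp (z i)))))
      ≤ ∫⁻ z : Fin n → ℝ, (ENNReal.ofReal (Real.sqrt ((n+1).factorial : ℝ)) *
        ∏ i, ENNReal.ofReal (sg (z i))) * ENNReal.ofReal (n.factorial : ℝ) := by
        refine lintegral_mono fun z => ?_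
        rw [lintegral_const_mul _ (by fun_prop)]
        gcongr
        exact lintegral_gamma_exp n (by positivity)
    _ = (ENNReal.ofReal (Real.sqrt ((n+1).factorial : ℝ)) * ENNReal.ofReal (n.factorial : ℝ)) *
        ∫⁻ z : Fin n → ℝ, ∏ i, ENNReal.ofReal (sg (z i)) := by
        rw [← lintegral_const_mul _ (by have := measurable_sg; fun_prop)]
        refine lintegral_congr fun z => ?_
        ring
    _ = (ENNReal.ofReal (Real.sqrt ((n+1).factorial : ℝ)) * ENNReal.ofReal (n.factorial : ℝ)) *
        ∏ i : Fin n, ∫⁻ t : ℝ, ENNReal.ofReal (sg t) := by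
        rw [lintegral_fin_prod n (fun _ t => ENNReal.ofReal (sg t))
          (fun _ => by have := measurable_sg; fun_prop)]
    _ ≤ (ENNReal.ofReal (Real.sqrt ((n+1).factorial : ℝ)) * ENNReal.ofReal (n.factorial : ℝ)) *
        (ENNReal.ofReal Real.pi) ^ n := by
        rw [Finset.prod_const, Finset.card_univ, Fintype.card_fin]
        gcongr
        exact lintegral_sg
    _ = ENNReal.ofReal (Real.sqrt ((n+1).factorial : ℝ) * (n.factorial : ℝ) * Real.pi ^ n) := by
        rw [ENNReal.ofReal_mul (by positivity), ENNReal.ofReal_mul (by positivity),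
          ENNReal.ofReal_pow Real.pi_pos.le]

end Pool.R178
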