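import Mathlib
import Pool.Agent.R178.CubeGeom

/-!
# The triangulation attached to generic heights, as a `Finset` of `Finset`s
-/

set_option autoImplicit false

namespace Pool.R178

open Finset

open scoped Classical in
/-- a cell as a finset of points -/
noncomputable def cell {n : ℕ} (s : Fin (n+1) → V n) : Finset (Fin n → ℝ) :=
  Finset.univ.image fun j => e (s j)

open scoped Classical in
/-- good tuples -/
noncomputable def goodTuples {n : ℕ} (h : V n → ℝ) : Finset (Fin (n+1) → V n) :=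
  Finset.univ.filter (Good h)

open scoped Classical in
/-- the triangulation -/
noncomputable def TT {n : ℕ} (h : V n → ℝ) : Finset (Finset (Fin n → ℝ)) :=
  (goodTuples h).image cell

lemma mem_goodTuples {n : ℕ} {h : V n → ℝ} {s : Fin (n+1) → V n} :
    s ∈ goodTuples h ↔ Good h s := by
  simp [goodTuples]

lemma mem_TT {n : ℕ} {h : V n → ℝ} {S : Finset (Fin n → ℝ)} :
    S ∈ TT h ↔ ∃ s, Good h s ∧ cell s = S := by
  simp [TT, mem_goodTuples]

lemma coe_cell {n : ℕ} (s : Fin (n+1) → V n) :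
    (↑(cell s) : Set (Fin n → ℝ)) = Set.range (fun j => e (s j)) := by
  simp [cell]

lemma Nondeg.affineIndependent {n : ℕ} {s : Fin (n+1) → V n} (hs : Nondeg s) :
    AffineIndependent ℝ (fun j => e (s j)) := by
  rw [affineIndependent_iff_of_fintype]
  intro w hw0 hw
  rw [Finset.weightedVSub_eq_linear_combination _ hw0] at hw
  have : w = 0 := by
    apply Matrix.eq_zero_of_vecMul_eq_zero hs
    funext k
    refine Fin.cases ?_ (fun k => ?_) k
    · simpa [Matrix.vecMul, dotProduct, M] using hw0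
    · have := congrFun hw k
      simpa [Matrix.vecMul, dotProduct, M] using this
  intro i
  rw [this]; rfl

lemma Nondeg.card_cell {n : ℕ} {s : Fin (n+1) → V n} (hs : Nondeg s) :
    (cell s).card = n + 1 := by
  rw [cell, Finset.card_image_of_injective]
  · simp
  · exact fun i j hij => hs.injective (e_inj hij)

lemma TT_cell {n : ℕ} {h : V n → ℝ} {S : Finset (Fin n → ℝ)} (hS : S ∈ TT h) :
    S.card = n + 1 ∧ AffineIndependent ℝ (fun x : S => (x : Fin n → ℝ)) ∧
      ∀ v ∈ S, ∀ i : Fin n, v i = 0 ∨ v i = 1 := by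
  obtain ⟨s, hs, rfl⟩ := mem_TT.1 hS
  refine ⟨hs.1.card_cell, ?_, ?_⟩
  · have h1 := hs.1.affineIndependent.range
    have h2 : (↑(cell s) : Set (Fin n → ℝ)) = Set.range (fun j => e (s j)) := coe_cell s
    have h3 : AffineIndependent ℝ (fun x : (↑(cell s) : Set (Fin n → ℝ)) => (x : Fin n → ℝ)) := by
      rw [h2]; exact h1
    exact h3
  · intro v hv i
    simp only [cell, Finset.mem_image, Finset.mem_univ, true_and] at hv
    obtain ⟨j, rfl⟩ := hv
    simp only [e]
    cases s j i <;> simp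

lemma mem_hull_cell {n : ℕ} (s : Fin (n+1) → V n) (x : Fin n → ℝ) :
    x ∈ convexHull ℝ (↑(cell s) : Set (Fin n → ℝ)) ↔
      ∃ a : Fin (n+1) → ℝ, (∀ j, 0 ≤ a j) ∧ ∑ j, a j = 1 ∧
        ∀ i, ∑ j, a j * e (s j) i = x i := by
  rw [coe_cell, convexHull_range_eq_exists_affineCombination]
  constructor
  · rintro ⟨t, w, hw0, hw1, hx⟩
    rw [Finset.affineCombination_eq_linear_combination _ _ _ hw1] at hx
    classical
    refine ⟨fun j => if j ∈ t then w j else 0, ?_, ?_, ?_⟩
    · intro j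
      by_cases hj : j ∈ t
      · simp [hj, hw0 j hj]
      · simp [hj]
    · rw [← hw1]
      simp
    · intro i
      rw [← hx]
      simp [Finset.sum_apply]
  · rintro ⟨a, ha0, ha1, ha2⟩
    refine ⟨Finset.univ, a, fun j _ => ha0 j, ha1, ?_⟩
    rw [Finset.affineCombination_eq_linear_combination _ _ _ ha1]
    funext i
    rw [← ha2 i]
    simp [Finset.sum_apply]

lemma TT_cover {n : ℕ} {h : V n → ℝ} (hg : Generic h) :
    (⋃ S ∈ TT h, convexHull ℝ (↑S : Set (Fin n → ℝ))) = Set.Icc (0 : Fin n → ℝ) 1 := by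
  apply Set.Subset.antisymm
  · intro x hx
    simp only [Set.mem_iUnion] at hx
    obtain ⟨S, hS, hx⟩ := hx
    obtain ⟨s, hs, rfl⟩ := mem_TT.1 hS
    refine convexHull_min ?_ (convex_Icc _ _) hx
    rw [coe_cell]
    rintro _ ⟨j, rfl⟩
    exact ⟨fun i => bv_nonneg _, fun i => bv_le_one _⟩
  · intro x hx
    obtain ⟨s, hs, a, ha⟩ := exists_good_cell hg (x := x) (fun i => hx.1 i) (fun i => hx.2 i)
    simp only [Set.mem_iUnion]
    exact ⟨cell s, mem_TT.2 ⟨s, hs, rfl⟩, (mem_hull_cell s x).2 ⟨a, ha⟩⟩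

lemma TT_inter {n : ℕ} {h : V n → ℝ} {S S' : Finset (Fin n → ℝ)} (hS : S ∈ TT h)
    (hS' : S' ∈ TT h) :
    convexHull ℝ (↑S : Set (Fin n → ℝ)) ∩ convexHull ℝ (↑S' : Set (Fin n → ℝ)) =
      convexHull ℝ (↑(S ∩ S') : Set (Fin n → ℝ)) := by
  classical
  obtain ⟨s, hs, rfl⟩ := mem_TT.1 hS
  obtain ⟨s', hs', rfl⟩ := mem_TT.1 hS'
  apply Set.Subset.antisymm
  · rintro x ⟨hx, hx'⟩
    obtain ⟨a, ha0, ha1, ha2⟩ := (mem_hull_cell s x).1 hx
    obtain ⟨b, hb0, hb1, hb2⟩ := (mem_hull_cell s' x).1 hx'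
    have key := good_support hs hs' ha0 ha1 ha2 hb0 hb1 hb2
    have hx2 : x = ∑ j ∈ Finset.univ.filter (fun j => a j ≠ 0), a j • e (s j) := by
      funext i
      rw [← ha2 i, Finset.sum_apply]
      simp only [Pi.smul_apply, smul_eq_mul]
      rw [Finset.sum_filter]
      refine Finset.sum_congr rfl fun j _ => ?_
      by_cases hj : a j = 0 <;> simp [hj]
    rw [hx2]
    refine (convex_convexHull ℝ _).sum_mem (fun j _ => ha0 j) ?_ ?_
    · rw [← ha1, Finset.sum_filter]
      refine Finset.sum_congr rfl fun j _ => ?_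
      by_cases hj : a j = 0 <;> simp [hj]
    · intro j hj
      apply subset_convexHull
      rw [Finset.mem_filter] at hj
      obtain ⟨k, hk⟩ := key j hj.2
      simp only [Finset.coe_inter, Set.mem_inter_iff, coe_cell, Set.mem_range]
      exact ⟨⟨j, rfl⟩, ⟨k, by rw [hk]⟩⟩
  · refine Set.subset_inter ?_ ?_
    · exact convexHull_mono (by simp)
    · exact convexHull_mono (by simp)

lemma Good.comp_perm {n : ℕ} {h : V n → ℝ} {s : Fin (n+1) → V n} (hs : Good h s)
    (σ : Equiv.Perm (Fin (n+1))) : Good h (s ∘ σ) := by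
  obtain ⟨hnd, y, h1, h2⟩ := hs
  refine ⟨nondeg_of fun z hz => hnd.eq_zero fun j => ?_, y, fun j => h1 _, fun v hv => h2 v ?_⟩
  · have := hz (σ.symm j)
    simpa using this
  · intro j
    have := hv (σ.symm j)
    simpa using this

lemma cell_comp_perm {n : ℕ} (s : Fin (n+1) → V n)
    (σ : Equiv.Perm (Fin (n+1))) : cell (s ∘ σ) = cell s := by
  apply Finset.coe_injective
  rw [coe_cell, coe_cell]
  exact σ.surjective.range_comp (fun j => e (s j))

lemma card_TT_mul_le {n : ℕ} (h : V n → ℝ) :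
    (n+1).factorial * (TT h).card ≤ (goodTuples h).card := by
  classical
  unfold TT
  apply Finset.mul_card_image_le_card
  intro S hS
  obtain ⟨s, hs, rfl⟩ := Finset.mem_image.1 hS
  rw [mem_goodTuples] at hs
  have h1 : (Finset.univ : Finset (Equiv.Perm (Fin (n+1)))).card = (n+1).factorial := by
    rw [Finset.card_univ, Fintype.card_perm, Fintype.card_fin]
  rw [← h1]
  refine Finset.card_le_card_of_injOn (fun σ => s ∘ σ) ?_ ?_
  · intro σ _
    simp only [Finset.coe_filter, Set.mem_ofPred_eq]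
    exact ⟨mem_goodTuples.2 (hs.comp_perm σ), cell_comp_perm s σ⟩
  · intro σ _ τ _ hστ
    apply Equiv.ext
    intro j
    exact hs.1.injective (congrFun hστ j)

end Pool.R178
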