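import Mathlib
import Pool.Agent.R178.CubeInt
import Pool.Agent.R178.CubeTri

/-!
# Expected number of cells of a random regular triangulation of the cube
-/

set_option autoImplicit false

namespace Pool.R178

open MeasureTheory Set Finset

/-- the solution of the interpolation problem -/
noncomputable def sol {n : ℕ} (s : Fin (n+1) → V n) (a : Fin (n+1) → ℝ) : Fin (n+1) → ℝ :=
  (M s)⁻¹.mulVec a

lemma L_sol {n : ℕ} {s : Fin (n+1) → V n} (hs : Nondeg s) (a : Fin (n+1) → ℝ) (j : Fin (n+1)) :
    L (sol s a) (s j) = a j := by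
  rw [← M_mulVec, sol, Matrix.mulVec_mulVec, Matrix.mul_nonsing_inv _ (isUnit_iff_ne_zero.2 hs),
    Matrix.one_mulVec]

lemma sol_mulVec {n : ℕ} {s : Fin (n+1) → V n} (hs : Nondeg s) (y : Fin (n+1) → ℝ) :
    sol s ((M s).mulVec y) = y := by
  rw [sol, Matrix.mulVec_mulVec, Matrix.nonsing_inv_mul _ (isUnit_iff_ne_zero.2 hs),
    Matrix.one_mulVec]

lemma good_iff {n : ℕ} {h : V n → ℝ} {s : Fin (n+1) → V n} (hs : Nondeg s) :
    Good h s ↔ ∀ r : {v : V n // ∀ j, v ≠ s j}, L (sol s (fun j => h (s j))) r < h r := by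
  constructor
  · rintro ⟨-, y, h1, h2⟩ r
    have : sol s (fun j => h (s j)) = y := hs.unique fun j => by rw [L_sol hs, h1]
    rw [this]
    exact h2 r.1 r.2
  · intro hr
    exact ⟨hs, sol s (fun j => h (s j)), fun j => L_sol hs _ j, fun v hv => hr ⟨v, hv⟩⟩

lemma measurable_L_sol {n : ℕ} (s : Fin (n+1) → V n) (v : V n) :
    Measurable fun a : Fin (n+1) → ℝ => L (sol s a) v := by
  unfold L Lx sol Matrix.mulVec dotProduct
  fun_prop

/-- splitting of the heights -/
noncomputable def splitEquiv {n : ℕ} (s : Fin (n+1) → V n) (hs : Function.Injective s) :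
    Fin (n+1) ⊕ {v : V n // ∀ j, v ≠ s j} ≃ V n :=
  Equiv.ofBijective (Sum.elim s Subtype.val) (by
    constructor
    · rintro (i | i) (j | j) hij
      · simp only [Sum.elim_inl] at hij
        rw [hs hij]
      · simp only [Sum.elim_inl, Sum.elim_inr] at hij
        exact absurd hij.symm (j.2 i)
      · simp only [Sum.elim_inl, Sum.elim_inr] at hij
        exact absurd hij (i.2 j)
      · simp only [Sum.elim_inr] at hij
        rw [Subtype.ext hij]
    · intro v
      by_cases hv : ∀ j, v ≠ s j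
      · exact ⟨Sum.inr ⟨v, hv⟩, rfl⟩
      · push Not at hv
        obtain ⟨j, rfl⟩ := hv
        exact ⟨Sum.inl j, rfl⟩)

lemma split_mp {n : ℕ} (s : Fin (n+1) → V n) (hs : Function.Injective s) :
    MeasurePreserving (fun h : V n → ℝ =>
        ((fun j => h (s j)), (fun r : {v : V n // ∀ j, v ≠ s j} => h r)))
      (Measure.pi fun _ => nu)
      ((Measure.pi fun _ : Fin (n+1) => nu).prod
        (Measure.pi fun _ : {v : V n // ∀ j, v ≠ s j} => nu)) := by
  have h1 := (measurePreserving_piCongrLeft (fun _ : V n => nu) (splitEquiv s hs)).symm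
  have h2 := measurePreserving_sumPiEquivProdPi
    (fun _ : Fin (n+1) ⊕ {v : V n // ∀ j, v ≠ s j} => nu)
  have h3 := h2.comp h1
  have h4 : (fun h : V n → ℝ => ((fun j => h (s j)),
      (fun r : {v : V n // ∀ j, v ≠ s j} => h r))) =
      ⇑(MeasurableEquiv.sumPiEquivProdPi fun _ : Fin (n+1) ⊕ {v : V n // ∀ j, v ≠ s j} => ℝ) ∘
        ⇑(MeasurableEquiv.piCongrLeft (fun _ : V n => ℝ) (splitEquiv s hs)).symm := by
    funext h
    rfl
  rw [h4]
  exact h3

/-- the law of the heights -/
noncomputable def mu (n : ℕ) : Measure (V n → ℝ) := Measure.pi fun _ => nu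

instance (n : ℕ) : IsProbabilityMeasure (mu n) := by unfold mu; infer_instance

lemma measurableSet_good {n : ℕ} (s : Fin (n+1) → V n) :
    MeasurableSet {h : V n → ℝ | Good h s} := by
  by_cases hs : Nondeg s
  · have : {h : V n → ℝ | Good h s} =
        ⋂ r : {v : V n // ∀ j, v ≠ s j}, {h | L (sol s (fun j => h (s j))) r < h r} := by
      ext h
      simp only [Set.mem_iInter, Set.mem_ofPred_eq]
      exact good_iff hs
    rw [this]
    refine MeasurableSet.iInter fun r => measurableSet_lt ?_ (by fun_prop)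
    exact (measurable_L_sol s r.1).comp (by fun_prop)
  · have : {h : V n → ℝ | Good h s} = ∅ := by
      ext h
      simp only [Set.mem_ofPred_eq, Set.mem_empty_iff_false, iff_false]
      exact fun hh => hs hh.1
    rw [this]
    exact MeasurableSet.empty

lemma prob_good_le {n : ℕ} (s : Fin (n+1) → V n) (hs : Nondeg s) :
    mu n {h | Good h s} ≤ ∫⁻ y : Fin (n+1) → ℝ,
      ENNReal.ofReal (|(M s).det| * (∏ j, Real.exp (L y (s j))) * Real.exp (-GG y)) := by
  have hinj := hs.injective
  have hmp := split_mp s hinj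
  let B : Set ((Fin (n+1) → ℝ) × ({v : V n // ∀ j, v ≠ s j} → ℝ)) :=
    {p | ∀ r : {v : V n // ∀ j, v ≠ s j}, L (sol s p.1) r < p.2 r}
  have hB : MeasurableSet B := by
    have : B = ⋂ r : {v : V n // ∀ j, v ≠ s j}, {p | L (sol s p.1) r < p.2 r} := by
      ext p; simp only [B, Set.mem_iInter, Set.mem_ofPred_eq]
    rw [this]
    refine MeasurableSet.iInter fun r => measurableSet_lt ?_ (by fun_prop)
    exact (measurable_L_sol s r.1).comp measurable_fst
  have h1 : {h : V n → ℝ | Good h s} = (fun h : V n → ℝ =>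
        ((fun j => h (s j)), (fun r : {v : V n // ∀ j, v ≠ s j} => h r))) ⁻¹' B := by
    ext h
    simp only [Set.mem_ofPred_eq, Set.mem_preimage, B]
    exact good_iff hs
  rw [h1, mu, hmp.measure_preimage hB.nullMeasurableSet, Measure.prod_apply hB]
  -- slices
  let g : (Fin (n+1) → ℝ) → ENNReal := fun a =>
    ∏ r : {v : V n // ∀ j, v ≠ s j}, ENNReal.ofReal (Real.exp (-Real.exp (L (sol s a) r)))
  have hg : Measurable g := by
    refine Finset.measurable_prod _ fun r _ => ?_
    have := measurable_L_sol s r.1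
    fun_prop
  have h2 : ∀ a : Fin (n+1) → ℝ, (Measure.pi fun _ : {v : V n // ∀ j, v ≠ s j} => nu)
      (Prod.mk a ⁻¹' B) ≤ g a := by
    intro a
    have : Prod.mk a ⁻¹' B = Set.pi univ fun r : {v : V n // ∀ j, v ≠ s j} =>
        Ioi (L (sol s a) r) := by
      ext b
      simp [B]
    rw [this, Measure.pi_pi]
    exact Finset.prod_le_prod' fun r _ => nu_Ioi _
  refine (lintegral_mono h2).trans ?_
  rw [lintegral_pi_nu hg]
  -- change of variables
  have hdet := Real.map_matrix_volume_pi_eq_smul_volume_pi (M := M s) hs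
  have hpos : 0 < |(M s).det| := abs_pos.2 hs
  have hvol : (volume : Measure (Fin (n+1) → ℝ)) =
      ENNReal.ofReal |(M s).det| • Measure.map (Matrix.toLin' (M s)) volume := by
    rw [hdet, smul_smul, ← ENNReal.ofReal_mul (abs_nonneg _), abs_inv, mul_inv_cancel₀ hpos.ne',
      ENNReal.ofReal_one, one_smul]
  have hmeasT : Measurable (Matrix.toLin' (M s)) :=
    (LinearMap.continuous_of_finiteDimensional (Matrix.toLin' (M s))).measurable
  have hmeasI : Measurable fun a : Fin (n+1) → ℝ => (∏ i, gd (a i)) * g a := by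
    have := measurable_gd
    fun_prop
  have h3 : ∫⁻ a : Fin (n+1) → ℝ, (∏ i, gd (a i)) * g a =
      ENNReal.ofReal |(M s).det| * ∫⁻ y : Fin (n+1) → ℝ,
        (∏ i, gd (Matrix.toLin' (M s) y i)) * g (Matrix.toLin' (M s) y) := by
    conv_lhs => rw [hvol]
    rw [lintegral_smul_measure, lintegral_map hmeasI hmeasT, smul_eq_mul]
  have hmeasC : Measurable fun y : Fin (n+1) → ℝ =>
      (∏ i, gd (Matrix.toLin' (M s) y i)) * g (Matrix.toLin' (M s) y) := hmeasI.comp hmeasT
  rw [h3, ← lintegral_const_mul _ hmeasC]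
  refine le_of_eq (lintegral_congr fun y => ?_)
  have h4 : ∀ i, Matrix.toLin' (M s) y i = L y (s i) := fun i => by
    rw [Matrix.toLin'_apply, M_mulVec]
  have h5 : sol s (Matrix.toLin' (M s) y) = y := by
    rw [Matrix.toLin'_apply]; exact sol_mulVec hs y
  have h6 : g (Matrix.toLin' (M s) y) =
      ENNReal.ofReal (∏ r : {v : V n // ∀ j, v ≠ s j}, Real.exp (-Real.exp (L y r))) := by
    simp only [g, h5]
    rw [ENNReal.ofReal_prod_of_nonneg (fun _ _ => (Real.exp_pos _).le)]
  have h7 : ∏ i, gd (Matrix.toLin' (M s) y i) =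
      ENNReal.ofReal (∏ i, (Real.exp (L y (s i)) * Real.exp (-Real.exp (L y (s i))))) := by
    simp only [h4, gd]
    rw [ENNReal.ofReal_prod_of_nonneg (fun _ _ => by positivity)]
  rw [h6, h7, ← ENNReal.ofReal_mul (by positivity), ← ENNReal.ofReal_mul (by positivity)]
  congr 1
  have h8 : -GG y = (∑ i, -Real.exp (L y (s i))) +
      ∑ r : {v : V n // ∀ j, v ≠ s j}, -Real.exp (L y r) := by
    have e1 : ∀ a, splitEquiv s hinj (Sum.inl a) = s a := fun _ => rfl
    have e2 : ∀ a, splitEquiv s hinj (Sum.inr a) = a.1 := fun _ => rfl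
    rw [GG, ← (splitEquiv s hinj).sum_comp, Fintype.sum_sum_type]
    simp only [e1, e2, Finset.sum_neg_distrib]
    ring
  rw [h8, Real.exp_add, Real.exp_sum, Real.exp_sum, Finset.prod_mul_distrib]
  ring

lemma null_nongeneric (n : ℕ) : mu n {h | ¬ Generic h} = 0 := by
  have hsub : {h : V n → ℝ | ¬ Generic h} ⊆
      ⋃ (s : Fin (n+1) → V n) (_ : Nondeg s) (r : {v : V n // ∀ j, v ≠ s j}),
        {h | h r = L (sol s (fun j => h (s j))) r} := by
    intro h hh
    simp only [Set.mem_ofPred_eq, Generic] at hh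
    push Not at hh
    obtain ⟨s, hs, y, hy, v, hv, hL⟩ := hh
    simp only [Set.mem_iUnion, Set.mem_ofPred_eq]
    refine ⟨s, hs, ⟨v, hv⟩, ?_⟩
    have : sol s (fun j => h (s j)) = y := hs.unique fun j => by rw [L_sol hs, hy]
    rw [this, hL]
  refine measure_mono_null hsub ?_
  refine measure_iUnion_null fun s => measure_iUnion_null fun hs => measure_iUnion_null fun r => ?_
  have hinj := hs.injective
  have hmp := split_mp s hinj
  let B : Set ((Fin (n+1) → ℝ) × ({v : V n // ∀ j, v ≠ s j} → ℝ)) :=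
    {p | p.2 r = L (sol s p.1) r}
  have hB : MeasurableSet B := by
    refine measurableSet_eq_fun (by fun_prop) ?_
    exact (measurable_L_sol s r.1).comp measurable_fst
  have h1 : {h : V n → ℝ | h r = L (sol s (fun j => h (s j))) r} = (fun h : V n → ℝ =>
        ((fun j => h (s j)), (fun r : {v : V n // ∀ j, v ≠ s j} => h r))) ⁻¹' B := by
    ext h
    simp only [Set.mem_ofPred_eq, Set.mem_preimage, B]
  rw [h1, mu, hmp.measure_preimage hB.nullMeasurableSet, Measure.prod_apply hB]
  have h2 : ∀ a : Fin (n+1) → ℝ, (Measure.pi fun _ : {v : V n // ∀ j, v ≠ s j} => nu)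
      (Prod.mk a ⁻¹' B) = 0 := by
    intro a
    exact Measure.pi_hyperplane (fun _ : {v : V n // ∀ j, v ≠ s j} => nu) r (L (sol s a) r)
  simp only [h2, lintegral_zero]

/-- there are generic heights with few good tuples -/
theorem exists_few_good (n : ℕ) : ∃ h : V n → ℝ, Generic h ∧
    ((goodTuples h).card : ℝ) ≤
      Real.sqrt ((n+1).factorial : ℝ) * (n.factorial : ℝ) * Real.pi ^ n := by
  classical
  let f : (V n → ℝ) → ENNReal := fun h =>
    ∑ s : Fin (n+1) → V n, {h | Good h s}.indicator (fun _ => (1:ENNReal)) h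
  have hf : Measurable f := by
    refine Finset.measurable_sum _ fun s _ => ?_
    exact measurable_const.indicator (measurableSet_good s)
  obtain ⟨h, hN, hle⟩ := exists_notMem_null_le_lintegral (μ := mu n) hf.aemeasurable
    (null_nongeneric n)
  have hgen : Generic h := by
    by_contra hcon
    exact hN hcon
  refine ⟨h, hgen, ?_⟩
  have hfh : f h = ((goodTuples h).card : ENNReal) := by
    simp only [f, goodTuples, Set.indicator_apply, Set.mem_ofPred_eq]
    rw [Finset.sum_ite]
    simp
  have hint : ∫⁻ h, f h ∂(mu n) ≤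
      ENNReal.ofReal (Real.sqrt ((n+1).factorial : ℝ) * (n.factorial : ℝ) * Real.pi ^ n) := by
    simp only [f]
    rw [lintegral_finsetSum _ (fun s _ => measurable_const.indicator (measurableSet_good s))]
    calc ∑ s : Fin (n+1) → V n, ∫⁻ h, {h | Good h s}.indicator (fun _ => (1:ENNReal)) h ∂(mu n)
        ≤ ∑ s : Fin (n+1) → V n, ∫⁻ y : Fin (n+1) → ℝ,
            ENNReal.ofReal (|(M s).det| * (∏ j, Real.exp (L y (s j))) * Real.exp (-GG y)) := by
          refine Finset.sum_le_sum fun s _ => ?_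
          rw [lintegral_indicator (measurableSet_good s), setLIntegral_const, one_mul]
          by_cases hs : Nondeg s
          · exact prob_good_le s hs
          · have : {h : V n → ℝ | Good h s} = ∅ := by
              ext h
              simp only [Set.mem_ofPred_eq, Set.mem_empty_iff_false, iff_false]
              exact fun hh => hs hh.1
            rw [this]
            simp
      _ = ∫⁻ y : Fin (n+1) → ℝ, ∑ s : Fin (n+1) → V n,
            ENNReal.ofReal (|(M s).det| * (∏ j, Real.exp (L y (s j))) * Real.exp (-GG y)) := by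
          rw [lintegral_finsetSum]
          intro s _
          unfold GG L Lx
          fun_prop
      _ ≤ ∫⁻ y : Fin (n+1) → ℝ, ENNReal.ofReal (Real.sqrt ((n+1).factorial : ℝ) *
            GG y ^ (n+1) * (∏ i : Fin n, sg (y i.succ)) * Real.exp (-GG y)) := by
          refine lintegral_mono fun y => ?_
          rw [← ENNReal.ofReal_sum_of_nonneg (fun s _ => by positivity), ← Finset.sum_mul]
          refine ENNReal.ofReal_le_ofReal ?_
          exact mul_le_mul_of_nonneg_right (sum_abs_det_le y) (Real.exp_pos _).le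
      _ ≤ _ := lintegral_main n
  rw [hfh] at hle
  have := hle.trans hint
  rw [← ENNReal.ofReal_natCast] at this
  exact (ENNReal.ofReal_le_ofReal_iff (by positivity)).1 this

/-- small triangulations of the cube -/
theorem exists_small_triangulation (n : ℕ) : ∃ T : Finset (Finset (Fin n → ℝ)),
    (∀ S ∈ T, S.card = n + 1 ∧ AffineIndependent ℝ (fun x : S => (x : Fin n → ℝ)) ∧
      ∀ v ∈ S, ∀ i : Fin n, v i = 0 ∨ v i = 1) ∧
    (⋃ S ∈ T, convexHull ℝ (↑S : Set (Fin n → ℝ))) = Set.Icc (0 : Fin n → ℝ) 1 ∧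
    (∀ S ∈ T, ∀ S' ∈ T, convexHull ℝ (↑S : Set (Fin n → ℝ)) ∩
      convexHull ℝ (↑S' : Set (Fin n → ℝ)) = convexHull ℝ (↑(S ∩ S') : Set (Fin n → ℝ))) ∧
    (T.card : ℝ) ≤ Real.pi ^ n * Real.sqrt ((n.factorial : ℝ) / (n + 1)) := by
  obtain ⟨h, hg, hcard⟩ := exists_few_good n
  refine ⟨TT h, fun S hS => TT_cell hS, TT_cover hg, fun S hS S' hS' => TT_inter hS hS', ?_⟩
  have h1 : (((n+1).factorial : ℕ) : ℝ) * ((TT h).card : ℝ) ≤ ((goodTuples h).card : ℝ) := by
    exact_mod_cast card_TT_mul_le h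
  have h2 := h1.trans hcard
  have hpos : (0:ℝ) < ((n+1).factorial : ℝ) := by positivity
  have hn1 : (0:ℝ) < (n:ℝ) + 1 := by positivity
  have hfac : ((n+1).factorial : ℝ) = ((n:ℝ)+1) * (n.factorial : ℝ) := by
    rw [Nat.factorial_succ]; push_cast; ring
  have h3 : Real.sqrt ((n+1).factorial : ℝ) * (n.factorial : ℝ) =
      ((n+1).factorial : ℝ) * Real.sqrt ((n.factorial : ℝ) / (n + 1)) := by
    have e1 : ((n+1).factorial : ℝ) = ((n:ℝ)+1)^2 * ((n.factorial : ℝ) / (n + 1)) := by
      rw [hfac]; field_simp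
    nth_rewrite 1 [e1]
    rw [Real.sqrt_mul (by positivity), Real.sqrt_sq hn1.le, hfac]
    ring
  rw [h3, mul_assoc] at h2
  have h4 := le_of_mul_le_mul_left h2 hpos
  linarith

end Pool.R178
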