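import Mathlib

/-!
# Volume of simplices in the cube and covering lower bounds
-/

set_option autoImplicit false

namespace Pool.R178

open MeasureTheory Set Finset

/-- scaled corner simplex -/
def corner (d : ℕ) (c : ℝ) : Set (Fin d → ℝ) := {a | (∀ i, 0 ≤ a i) ∧ ∑ i, a i ≤ c}

lemma measurableSet_corner (d : ℕ) (c : ℝ) : MeasurableSet (corner d c) := by
  have : corner d c = (⋂ i, {a : Fin d → ℝ | 0 ≤ a i}) ∩ {a | ∑ i, a i ≤ c} := by
    ext a
    simp [corner]
  rw [this]
  refine MeasurableSet.inter (MeasurableSet.iInter fun i => measurableSet_le (by fun_prop)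
    (by fun_prop)) (measurableSet_le (by fun_prop) (by fun_prop))

lemma vol_corner : ∀ (d : ℕ) (c : ℝ), 0 ≤ c →
    volume (corner d c) ≤ ENNReal.ofReal (c ^ d / (d.factorial : ℝ))
  | 0, c, _ => by
    refine (measure_mono (subset_univ _)).trans ?_
    simp [volume_pi]
  | d+1, c, hc => by
    have h := (volume_preserving_piFinSuccAbove (fun _ : Fin (d+1) => ℝ) 0).symm
    rw [← h.measure_preimage (measurableSet_corner _ _).nullMeasurableSet]
    have h2 : (volume : Measure (ℝ × (Fin d → ℝ))) = (volume : Measure ℝ).prod volume := rfl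
    have h3 : MeasurableSet ((MeasurableEquiv.piFinSuccAbove (fun _ : Fin (d+1) => ℝ) 0).symm ⁻¹'
        corner (d+1) c) := (measurableSet_corner _ _).preimage (MeasurableEquiv.measurable _)
    rw [h2, Measure.prod_apply h3]
    have hcons : ∀ (t : ℝ) (a : Fin d → ℝ),
        (MeasurableEquiv.piFinSuccAbove (fun _ : Fin (d+1) => ℝ) 0).symm (t, a) =
        (Fin.cons t a : Fin (d+1) → ℝ) := by
      intro t a
      simp [MeasurableEquiv.piFinSuccAbove]
      rfl
    have hmem : ∀ (t : ℝ) (a : Fin d → ℝ), a ∈ Prod.mk t ⁻¹' ((MeasurableEquiv.piFinSuccAbove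
        (fun _ : Fin (d+1) => ℝ) 0).symm ⁻¹' corner (d+1) c) →
        (Fin.cons t a : Fin (d+1) → ℝ) ∈ corner (d+1) c := by
      intro t a ha
      rw [Set.mem_preimage, Set.mem_preimage, hcons] at ha
      exact ha
    have h4 : ∀ t : ℝ, volume (Prod.mk t ⁻¹' ((MeasurableEquiv.piFinSuccAbove
        (fun _ : Fin (d+1) => ℝ) 0).symm ⁻¹' corner (d+1) c)) ≤
        (Set.Icc 0 c).indicator (fun t => ENNReal.ofReal ((c - t) ^ d / (d.factorial : ℝ))) t := by
      intro t
      by_cases ht : t ∈ Set.Icc 0 c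
      · rw [indicator_of_mem ht]
        refine le_trans (measure_mono ?_) (vol_corner d (c - t) (by linarith [ht.2]))
        intro a ha
        have ha' := hmem t a ha
        refine ⟨fun i => ?_, ?_⟩
        · simpa using ha'.1 i.succ
        · have := ha'.2
          rw [Fin.sum_univ_succ] at this
          simp only [Fin.cons_zero, Fin.cons_succ] at this
          linarith
      · rw [indicator_of_notMem ht]
        have : Prod.mk t ⁻¹' ((MeasurableEquiv.piFinSuccAbove
          (fun _ : Fin (d+1) => ℝ) 0).symm ⁻¹' corner (d+1) c) = ∅ := by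
          ext a
          simp only [Set.mem_empty_iff_false, iff_false]
          intro ha
          have ha' := hmem t a ha
          apply ht
          have h0 : 0 ≤ t := by simpa using ha'.1 0
          have h1 := ha'.2
          rw [Fin.sum_univ_succ] at h1
          simp only [Fin.cons_zero, Fin.cons_succ] at h1
          have h5 : 0 ≤ ∑ i, a i := Finset.sum_nonneg fun i _ => by simpa using ha'.1 i.succ
          exact ⟨h0, by linarith⟩
        rw [this]; simp
    refine (lintegral_mono h4).trans ?_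
    rw [lintegral_indicator measurableSet_Icc]
    have hd : ∀ t ∈ Set.Icc 0 c, HasDerivWithinAt
        (fun t : ℝ => - ((c - t) ^ (d+1) / ((d+1).factorial : ℝ)))
        ((c - t) ^ d / (d.factorial : ℝ)) (Set.Icc 0 c) t := by
      intro t _
      have e1 : HasDerivAt (fun t : ℝ => c - t) (-1) t := by
        simpa using (hasDerivAt_id t).const_sub c
      have e2 := ((e1.pow (d+1)).div_const ((d+1).factorial : ℝ)).neg
      have e3 : -((((d+1 : ℕ) : ℝ) * (c - t) ^ (d+1-1) * -1) / ((d+1).factorial : ℝ)) =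
          (c - t) ^ d / (d.factorial : ℝ) := by
        rw [Nat.factorial_succ]
        push_cast
        have : (0:ℝ) < (d.factorial : ℝ) := by positivity
        have : (0:ℝ) < (d:ℝ) + 1 := by positivity
        field_simp
      rw [← e3]
      exact e2.hasDerivWithinAt
    have hm : MonotoneOn (fun t : ℝ => - ((c - t) ^ (d+1) / ((d+1).factorial : ℝ)))
        (Set.Icc 0 c) := by
      intro a ha b hb hab
      simp only
      have h1 : (c - b) ^ (d+1) ≤ (c - a) ^ (d+1) :=
        pow_le_pow_left₀ (by linarith [hb.2]) (by linarith) _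
      have h2 : (c - b) ^ (d+1) / ((d+1).factorial : ℝ) ≤ (c - a) ^ (d+1) /
        ((d+1).factorial : ℝ) := by gcongr
      linarith
    rw [lintegral_deriv_eq_volume_image_of_monotoneOn measurableSet_Icc hd hm]
    have hsub : (fun t : ℝ => - ((c - t) ^ (d+1) / ((d+1).factorial : ℝ))) '' (Set.Icc 0 c) ⊆
        Set.Icc (-(c ^ (d+1) / ((d+1).factorial : ℝ))) 0 := by
      rintro _ ⟨t, ht, rfl⟩
      constructor
      · have := hm (left_mem_Icc.2 hc) ht ht.1
        simpa using this
      · simp only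
        have : 0 ≤ (c - t) ^ (d+1) / ((d+1).factorial : ℝ) :=
          div_nonneg (pow_nonneg (by linarith [ht.2]) _) (by positivity)
        linarith
    refine (measure_mono hsub).trans ?_
    rw [Real.volume_Icc]
    simp

/-- Hadamard's bound -/
lemma det_sq_le {m : ℕ} (A : Matrix (Fin m) (Fin m) ℝ) (hA : ∀ i j, |A i j| ≤ 1) :
    A.det ^ 2 ≤ (m : ℝ) ^ m := by
  rcases Nat.eq_zero_or_pos m with hm | hm
  · subst hm
    simp
  have hpsd : (A * A.transpose).PosSemidef := by
    have := Matrix.posSemidef_self_mul_conjTranspose A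
    rwa [Matrix.conjTranspose_eq_transpose_of_trivial] at this
  have hH := hpsd.isHermitian
  have h1 : A.det ^ 2 = ∏ i, hH.eigenvalues i := by
    have := hH.det_eq_prod_eigenvalues
    rw [Matrix.det_mul, Matrix.det_transpose] at this
    rw [pow_two]
    simpa using this
  have h2 : ∑ i, hH.eigenvalues i ≤ (m:ℝ) * m := by
    have := hH.trace_eq_sum_eigenvalues
    have h3 : ∑ i, hH.eigenvalues i = (A * A.transpose).trace := by
      rw [this]; simp
    rw [h3, Matrix.trace]
    calc ∑ i, (A * A.transpose).diag i ≤ ∑ i : Fin m, (m:ℝ) := by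
          refine Finset.sum_le_sum fun i _ => ?_
          simp only [Matrix.diag_apply, Matrix.mul_apply, Matrix.transpose_apply]
          calc ∑ j, A i j * A i j ≤ ∑ j : Fin m, (1:ℝ) := by
                refine Finset.sum_le_sum fun j _ => ?_
                have := hA i j
                rw [← abs_mul_abs_self]
                nlinarith [abs_nonneg (A i j)]
            _ = m := by simp
      _ = (m:ℝ) * m := by simp
  have hev : ∀ i, 0 ≤ hH.eigenvalues i := fun i => hpsd.eigenvalues_nonneg i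
  have hm' : (0:ℝ) < m := by exact_mod_cast hm
  have h4 := Real.geom_mean_le_arith_mean_weighted (Finset.univ : Finset (Fin m))
    (fun _ => (1:ℝ)/m) hH.eigenvalues (fun _ _ => by positivity)
    (by simp [hm'.ne']) (fun i _ => hev i)
  have h5 : ∑ i, (1:ℝ)/m * hH.eigenvalues i ≤ m := by
    rw [← Finset.mul_sum]
    calc (1:ℝ)/m * ∑ i, hH.eigenvalues i ≤ (1:ℝ)/m * (m * m) := by gcongr
      _ = m := by field_simp
  have h6 := h4.trans h5
  have h7 : (∏ i, hH.eigenvalues i ^ ((1:ℝ)/m)) ^ m ≤ (m:ℝ) ^ m :=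
    pow_le_pow_left₀ (Finset.prod_nonneg fun i _ => Real.rpow_nonneg (hev i) _) h6 m
  rw [← Finset.prod_pow] at h7
  have h8 : ∀ i, (hH.eigenvalues i ^ ((1:ℝ)/m)) ^ m = hH.eigenvalues i := by
    intro i
    rw [← Real.rpow_natCast, ← Real.rpow_mul (hev i)]
    rw [one_div, inv_mul_cancel₀ hm'.ne', Real.rpow_one]
  simp only [h8] at h7
  rw [h1]
  exact h7

/-- edge matrix of a simplex -/
noncomputable def edgeM {d : ℕ} (p : Fin (d+1) → Fin d → ℝ) : Matrix (Fin d) (Fin d) ℝ :=
  Matrix.of fun i j => p j.succ i - p 0 i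

lemma abs_det_edge_le {d : ℕ} (p : Fin (d+1) → Fin d → ℝ)
    (hp : ∀ j i, 0 ≤ p j i ∧ p j i ≤ 1) :
    |(edgeM p).det| ≤ Real.sqrt (((d:ℝ)+1) ^ (d+1)) / 2 ^ d := by
  let H : Matrix (Fin (d+1)) (Fin (d+1)) ℝ := Matrix.of fun j k =>
    (Fin.cons 1 (fun i => 2 * p j i - 1) : Fin (d+1) → ℝ) k
  let H' : Matrix (Fin (d+1)) (Fin (d+1)) ℝ := Matrix.of fun j k =>
    H j k + (if j = 0 then 0 else -1) * H 0 k
  have h1 : H'.det = H.det := by
    apply Matrix.det_eq_of_forall_row_eq_smul_add_const (fun j => if j = 0 then 0 else -1) 0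
      (by simp)
    intro i j
    rfl
  have h2 : H'.det = 2 ^ d * (edgeM p).det := by
    rw [Matrix.det_succ_column_zero, Fin.sum_univ_succ]
    have hz : ∀ i : Fin d, H' i.succ 0 = 0 := by
      intro i
      simp [H', H]
    simp only [hz, mul_zero, zero_mul, Finset.sum_const_zero, add_zero]
    have h0 : H' 0 0 = 1 := by simp [H', H]
    rw [h0]
    have hsub : H'.submatrix (Fin.succAbove 0) Fin.succ = (2:ℝ) • (edgeM p).transpose := by
      ext i j
      simp only [H', H, edgeM, Matrix.submatrix_apply, Matrix.of_apply, Fin.succAbove_zero,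
        Fin.cons_succ, Fin.succ_ne_zero, if_false, Matrix.smul_apply, Matrix.transpose_apply,
        smul_eq_mul]
      ring
    rw [hsub, Matrix.det_smul, Matrix.det_transpose]
    simp
  have h3 : H.det ^ 2 ≤ ((d:ℝ)+1) ^ (d+1) := by
    have := det_sq_le H (by
      intro j k
      refine Fin.cases ?_ (fun i => ?_) k
      · simp [H]
      · simp only [H, Matrix.of_apply, Fin.cons_succ]
        rw [abs_le]
        constructor <;> linarith [(hp j i).1, (hp j i).2])
    simpa using this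
  have h4 : |H.det| ≤ Real.sqrt (((d:ℝ)+1) ^ (d+1)) := by
    apply Real.le_sqrt_of_sq_le
    rw [sq_abs]; exact h3
  rw [← h1, h2, abs_mul, abs_of_pos (by positivity : (0:ℝ) < 2 ^ d)] at h4
  rw [le_div_iff₀ (by positivity)]
  linarith

lemma vol_hull_le {d : ℕ} (p : Fin (d+1) → Fin d → ℝ)
    (hp : ∀ j i, 0 ≤ p j i ∧ p j i ≤ 1) :
    volume (convexHull ℝ (Set.range p)) ≤
      ENNReal.ofReal (Real.sqrt (((d:ℝ)+1) ^ (d+1)) / 2 ^ d * (1 / (d.factorial : ℝ))) := by
  have hsub : convexHull ℝ (Set.range p) ⊆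
      (fun x => p 0 + x) '' ((Matrix.toLin' (edgeM p)) '' (corner d 1)) := by
    intro x hx
    rw [convexHull_range_eq_exists_affineCombination] at hx
    obtain ⟨t, w, hw0, hw1, hx⟩ := hx
    rw [Finset.affineCombination_eq_linear_combination _ _ _ hw1] at hx
    classical
    let a : Fin (d+1) → ℝ := fun j => if j ∈ t then w j else 0
    have ha0 : ∀ j, 0 ≤ a j := by
      intro j
      by_cases hj : j ∈ t
      · simp [a, hj, hw0 j hj]
      · simp [a, hj]
    have ha1 : ∑ j, a j = 1 := by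
      rw [← hw1]; simp [a]
    have ha2 : ∀ i, ∑ j, a j * p j i = x i := by
      intro i
      rw [← hx]
      simp [a, Finset.sum_apply]
    rw [Fin.sum_univ_succ] at ha1
    refine ⟨Matrix.toLin' (edgeM p) (fun j => a j.succ), ⟨fun j => a j.succ, ⟨fun i => ha0 _, ?_⟩,
      rfl⟩, ?_⟩
    · have := ha0 0
      linarith
    · funext i
      rw [← ha2 i, Fin.sum_univ_succ]
      simp only [Pi.add_apply, Matrix.toLin'_apply, Matrix.mulVec, dotProduct, edgeM,
        Matrix.of_apply, sub_mul, Finset.sum_sub_distrib]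
      rw [← Finset.mul_sum]
      have : a 0 = 1 - ∑ j : Fin d, a j.succ := by linarith
      rw [this]
      have h5 : ∑ j : Fin d, p j.succ i * a j.succ = ∑ j : Fin d, a j.succ * p j.succ i :=
        Finset.sum_congr rfl fun j _ => mul_comm _ _
      rw [h5]
      ring
  refine (measure_mono hsub).trans ?_
  rw [Set.image_add_left, measure_preimage_add, Measure.addHaar_image_linearMap,
    LinearMap.det_toLin']
  have h1 := vol_corner d 1 zero_le_one
  rw [one_pow] at h1
  calc ENNReal.ofReal |(edgeM p).det| * volume (corner d 1)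
      ≤ ENNReal.ofReal (Real.sqrt (((d:ℝ)+1) ^ (d+1)) / 2 ^ d) *
        ENNReal.ofReal (1 / (d.factorial : ℝ)) := by
        gcongr
        exact abs_det_edge_le p hp
    _ = _ := by rw [ENNReal.ofReal_mul (by positivity)]

/-- covering lower bound: simplices covering the cube -/
theorem card_lower_bound {d : ℕ} (T : Finset (Finset (Fin d → ℝ)))
    (hcard : ∀ S ∈ T, S.card = d + 1)
    (hcov : (⋃ S ∈ T, convexHull ℝ (↑S : Set (Fin d → ℝ))) = Set.Icc (0 : Fin d → ℝ) 1) :
    2 ^ d * (d.factorial : ℝ) / Real.sqrt (((d:ℝ)+1) ^ (d+1)) ≤ (T.card : ℝ) := by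
  have hvol : volume (Set.Icc (0 : Fin d → ℝ) 1) = 1 := by
    rw [Real.volume_Icc_pi]
    simp
  have h1 : (1:ENNReal) ≤ ∑ S ∈ T, volume (convexHull ℝ (↑S : Set (Fin d → ℝ))) := by
    rw [← hvol, ← hcov]
    exact measure_biUnion_finset_le T _
  have h2 : ∀ S ∈ T, volume (convexHull ℝ (↑S : Set (Fin d → ℝ))) ≤
      ENNReal.ofReal (Real.sqrt (((d:ℝ)+1) ^ (d+1)) / 2 ^ d * (1 / (d.factorial : ℝ))) := by
    intro S hS
    let φ := (Finset.equivFinOfCardEq (hcard S hS)).symm
    have hr : (↑S : Set (Fin d → ℝ)) = Set.range (fun j => ((φ j : S) : Fin d → ℝ)) := by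
      ext x
      simp only [Finset.mem_coe, Set.mem_range]
      constructor
      · intro hx
        exact ⟨φ.symm ⟨x, hx⟩, by simp⟩
      · rintro ⟨j, rfl⟩
        exact (φ j).2
    have hin : ∀ j i, 0 ≤ ((φ j : S) : Fin d → ℝ) i ∧ ((φ j : S) : Fin d → ℝ) i ≤ 1 := by
      intro j i
      have hx : ((φ j : S) : Fin d → ℝ) ∈ Set.Icc (0 : Fin d → ℝ) 1 := by
        rw [← hcov]
        simp only [Set.mem_iUnion]
        exact ⟨S, hS, subset_convexHull ℝ _ (φ j).2⟩
      exact ⟨hx.1 i, hx.2 i⟩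
    rw [hr]
    exact vol_hull_le _ hin
  have h3 : (1:ENNReal) ≤ ENNReal.ofReal ((T.card : ℝ) *
      (Real.sqrt (((d:ℝ)+1) ^ (d+1)) / 2 ^ d * (1 / (d.factorial : ℝ)))) := by
    refine h1.trans ((Finset.sum_le_sum h2).trans ?_)
    rw [Finset.sum_const, nsmul_eq_mul, ENNReal.ofReal_mul (p := (T.card : ℝ)) (by positivity),
      ENNReal.ofReal_natCast]
  rw [← ENNReal.ofReal_one, ENNReal.ofReal_le_ofReal_iff (by positivity)] at h3
  have hs : 0 < Real.sqrt (((d:ℝ)+1) ^ (d+1)) := Real.sqrt_pos.2 (by positivity)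
  rw [div_le_iff₀ hs]
  have h4 : (T.card : ℝ) * (Real.sqrt (((d:ℝ)+1) ^ (d+1)) / 2 ^ d * (1 / (d.factorial : ℝ))) =
      (T.card : ℝ) * Real.sqrt (((d:ℝ)+1) ^ (d+1)) / (2 ^ d * (d.factorial : ℝ)) := by
    field_simp
  rw [h4, le_div_iff₀ (by positivity), one_mul] at h3
  exact h3

end Pool.R178

namespace Pool.R178

lemma lower_simple (n : ℕ) : (Real.sqrt n / Real.exp 1) ^ n ≤
    2 ^ n * (n.factorial : ℝ) / Real.sqrt (((n:ℝ) + 1) ^ (n + 1)) := by
  rcases Nat.eq_zero_or_pos n with hn | hn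
  · subst hn; simp
  have hn1 : (1:ℝ) ≤ n := by exact_mod_cast hn
  have h1 : ((n:ℝ) ^ n) / (n.factorial : ℝ) ≤ Real.exp n :=
    Real.pow_div_factorial_le_exp _ (by positivity) n
  have h2 : (n:ℝ) ^ n ≤ Real.exp 1 ^ n * (n.factorial : ℝ) := by
    rw [div_le_iff₀ (by positivity)] at h1
    rwa [← Real.exp_nat_mul, mul_one]
  have h3 : ((n:ℝ) + 1) ^ (n + 1) ≤ (4 * n) ^ n := by
    have e1 : ((n:ℝ) + 1) ≤ 2 ^ n := by
      have := @Nat.lt_two_pow_self n
      exact_mod_cast this
    calc ((n:ℝ) + 1) ^ (n + 1) = ((n:ℝ) + 1) ^ n * ((n:ℝ) + 1) := pow_succ _ _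
      _ ≤ (2 * n) ^ n * 2 ^ n := by
          gcongr
          linarith
      _ = (4 * n) ^ n := by rw [← mul_pow]; ring
  have h4 : Real.sqrt (((n:ℝ) + 1) ^ (n + 1)) ≤ (2 * Real.sqrt n) ^ n := by
    apply Real.sqrt_le_iff.2
    refine ⟨by positivity, h3.trans (le_of_eq ?_)⟩
    have e2 : (2 * Real.sqrt n) ^ 2 = 4 * (n:ℝ) := by
      rw [mul_pow, Real.sq_sqrt (by positivity)]; norm_num
    rw [← pow_mul, mul_comm n 2, pow_mul, e2]
  have hs : 0 < Real.sqrt (((n:ℝ) + 1) ^ (n + 1)) := Real.sqrt_pos.2 (by positivity)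
  have he : 0 < Real.exp 1 ^ n := by positivity
  rw [div_pow, div_le_div_iff₀ he hs]
  calc Real.sqrt n ^ n * Real.sqrt (((n:ℝ) + 1) ^ (n + 1))
      ≤ Real.sqrt n ^ n * (2 * Real.sqrt n) ^ n := by gcongr
    _ = 2 ^ n * (n:ℝ) ^ n := by
        rw [mul_pow, ← mul_assoc, mul_comm (Real.sqrt n ^ n) (2 ^ n), mul_assoc, ← mul_pow,
          Real.mul_self_sqrt (by positivity)]
    _ ≤ 2 ^ n * (Real.exp 1 ^ n * (n.factorial : ℝ)) := by gcongr
    _ = 2 ^ n * (n.factorial : ℝ) * Real.exp 1 ^ n := by ring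

lemma upper_simple (n : ℕ) : Real.pi ^ n * Real.sqrt ((n.factorial : ℝ) / ((n:ℝ) + 1)) ≤
    (Real.pi * Real.sqrt n) ^ n := by
  rw [mul_pow]
  gcongr
  apply Real.sqrt_le_iff.2
  refine ⟨by positivity, ?_⟩
  rw [← pow_mul, mul_comm n 2, pow_mul, Real.sq_sqrt (by positivity)]
  calc (n.factorial : ℝ) / ((n:ℝ) + 1) ≤ (n.factorial : ℝ) := by
        apply div_le_self (by positivity)
        have : (0:ℝ) ≤ n := Nat.cast_nonneg n
        linarith
    _ ≤ (n:ℝ) ^ n := by exact_mod_cast Nat.factorial_le_pow n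

end Pool.R178
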